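import Pool.Agent.P.MP_5fda20_pr.G.Defs

/-! The lowest contact of two clusters gives a three arm event. -/

namespace Pool.Agent.P.MP_5fda20_pr.G

open Finset

namespace ArmP

theorem exists_step {P : ℤ → Prop} {a b : ℤ} (hab : a ≤ b) (ha : P a) (hb : ¬ P b) :
    ∃ j, a ≤ j ∧ j < b ∧ P j ∧ ¬ P (j + 1) := by
  by_contra hne
  have key : ∀ j, a ≤ j → j ≤ b → P j := by
    intro j hj
    induction j, hj using Int.leInduction with
    | base => exact fun _ => ha
    | succ j hj ih =>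
      intro h
      by_contra h'
      exact hne ⟨j, hj, by omega, ih (by omega), h'⟩
  exact hb (key b hab le_rfl)

variable {w : Wt} {t : ℕ} {n k h j m : ℤ}

theorem op_mk {D : Finset Pt} {p q : Pt} :
    Op w t D s(p, q) ↔ w s(p, q) < t ∧ p ∈ D ∧ q ∈ D := by
  rw [Op, mk_mem_sym2_iff]

/-- A wall is joined to the floor. -/
theorem floor (H1 : S_pl1) {c d x x' y y' : ℤ} (hh : 0 ≤ h) (hn : 0 ≤ n) (hc : 0 ≤ c)
    (hd : d ≤ 6 * h) (hx : x ∈ Icc c d) (hy : y ∈ Icc 0 h)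
    (W : Con (Op w t (Rc c d 0 (2 * h + 1))) (x, 0) (x', 2 * h + 1))
    (F : Con (Op w t (Rc 0 (6 * h) 0 h)) (0, y) (6 * h, y')) :
    Con (Op w t (Rc (-n) (6 * h + n) 0 (2 * h + 1))) (x', 2 * h + 1) (0, y) := by
  rw [mem_Icc] at hx hy
  obtain ⟨⟨z1, z2⟩, hz, P⟩ := W.first (fun z => -z.2) (fun a b hab => by
    have := nb_iff.1 hab; omega) (j := -h) (by simp only; omega) (by simp only; omega)
  obtain rfl : z2 = h := by simpa using hz
  have P' : Con (Op w t (Rc 0 (6 * z2) 0 z2)) (x, 0) (z1, z2) := P.mono fun a b _ he => by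
    obtain ⟨he, h2, -⟩ := he
    have ha := h2 a (Sym2.mem_mk_left a b)
    have hb := h2 b (Sym2.mem_mk_right a b)
    simp only [op_mk, mem_Rc] at he ⊢
    omega
  obtain ⟨z, h1, h2⟩ := H1 0 (6 * z2) 0 z2 y y' x z1 _ _ (fun _ he => he.2) (fun _ he => he.2)
    (mem_Rc.2 (by simp only; omega)) (mem_Rc.2 (by simp only; omega)) F P'
  have hm : ∀ a b : Pt, Nb a b → Op w t (Rc 0 (6 * z2) 0 z2) s(a, b) →
      Op w t (Rc (-n) (6 * z2 + n) 0 (2 * z2 + 1)) s(a, b) := fun a b _ he => by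
    simp only [op_mk, mem_Rc] at he ⊢
    omega
  refine (W.symm.mono fun a b _ he => ?_).trans ((h2.mono hm).trans (h1.symm.mono hm))
  simp only [op_mk, mem_Rc] at he ⊢
  omega

/-- A path above the floor crosses the window. -/
theorem window {xa xb : ℤ} (hh : 0 ≤ h) (hn : 0 ≤ n) (ha : 0 ≤ xa) (ha' : xa ≤ h)
    (hb : 5 * h ≤ xb)
    (C : Con (Op w t (Rc (-n) (6 * h + n) (h + 1) (2 * h + 1))) (xa, 2 * h + 1) (xb, 2 * h + 1)) :
    LR w t (2 * h) (4 * h) (h + 1) (2 * h + 1) := by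
  have hA : ((xa, 2 * h + 1) : Pt) ∈ Rc (-n) (6 * h + n) (h + 1) (2 * h + 1) :=
    mem_Rc.2 (by simp only; omega)
  obtain ⟨⟨z1, z2⟩, hz, P⟩ := C.first (fun z => -z.1) (fun a b hab => by
    have := nb_iff.1 hab; omega) (j := -(4 * h)) (by simp only; omega) (by simp only; omega)
  obtain rfl : z1 = 4 * h := by simpa using hz
  have m1 := P.mem (fun _ he => he.1.2) hA
  obtain ⟨⟨u1, u2⟩, hu, Q⟩ := P.symm.first (fun z => z.1) (fun a b hab => by
    have := nb_iff.1 hab; omega) (j := 2 * h) (by simp only; omega) (by simp only; omega)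
  obtain rfl : u1 = 2 * h := hu
  have m2 := Q.mem (fun _ he => he.1.1.2) m1
  refine ⟨u2, mem_Icc.2 (mem_Rc.1 m2).2, z2, mem_Icc.2 (mem_Rc.1 m1).2,
    Q.symm.mono fun a b _ he => ?_⟩
  obtain ⟨⟨he, h2, -⟩, h3, -⟩ := he
  have h4 := h2 a (Sym2.mem_mk_left a b)
  have h5 := h2 b (Sym2.mem_mk_right a b)
  have h6 := h3 a (Sym2.mem_mk_left a b)
  have h7 := h3 b (Sym2.mem_mk_right a b)
  simp only [op_mk, mem_Rc] at he ⊢
  omega

/-- Open edges above row `j`, the edges of row `j` only on the left of `m`. -/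
def OO (w : Wt) (t : ℕ) (n h j m : ℤ) (e : Sym2 Pt) : Prop :=
  Op w t (Rc (-n) (6 * h + n) j (2 * h + 1)) e ∧ ∀ x, e = s((x, j), (x + 1, j)) → x < m

theorem proj {a b : Pt} (ha : j + 1 ≤ a.2) (hb : j + 1 ≤ b.2) (C : Con (OO w t n h j (-n)) a b) :
    Con (Op w t (Rc (-n) (6 * h + n) (j + 1) (2 * h + 1))) a b := by
  have key := C.ind (P := fun z => Con (Op w t (Rc (-n) (6 * h + n) (j + 1) (2 * h + 1))) a
    (z.1, max z.2 (j + 1))) (by rw [max_eq_left ha]; exact .refl a) fun p q _ h1 h2 h3 => by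
      obtain ⟨p1, p2⟩ := p
      obtain ⟨q1, q2⟩ := q
      obtain ⟨h2, h4⟩ := h2
      have h5 := nb_iff.1 h1
      have h6 : q1 = p1 + 1 → p2 = j → q2 = j → p1 < -n := fun e1 e2 e3 =>
        h4 p1 (by rw [e1, e2, e3])
      have h7 : p1 = q1 + 1 → p2 = j → q2 = j → q1 < -n := fun e1 e2 e3 =>
        h4 q1 (by rw [e1, e2, e3, Sym2.eq_swap])
      simp only [op_mk, mem_Rc] at h2 h5
      by_cases h8 : j + 1 ≤ p2 ∧ j + 1 ≤ q2
      · simp only [max_eq_left h8.1, max_eq_left h8.2] at h3 ⊢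
        refine h3.tail h1 ?_
        simp only [op_mk, mem_Rc]
        omega
      · have e1 : q1 = p1 := by omega
        have e2 : max q2 (j + 1) = max p2 (j + 1) := by omega
        simp only [e1, e2] at h3 ⊢
        exact h3
  rwa [max_eq_left hb] at key

/-- A wall from its top to its first visit of row `j`. -/
theorem wall {c d x x' : ℤ} (hn : 0 ≤ n) (hc : 0 ≤ c) (hd : d ≤ 6 * h) (hj : 0 ≤ j)
    (hj' : j ≤ h) (hx : x' ∈ Icc c d)
    (W : Con (Op w t (Rc c d 0 (2 * h + 1))) (x, 0) (x', 2 * h + 1)) :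
    ∃ z, c ≤ z ∧ z ≤ d ∧ Con (OO w t n h j m) (x', 2 * h + 1) (z, j) := by
  rw [mem_Icc] at hx
  obtain ⟨⟨z1, z2⟩, hz, P⟩ := W.symm.first (fun z => z.2) (fun a b hab => by
    have := nb_iff.1 hab; omega) (j := j) (by simp only; omega) (by simp only; omega)
  obtain rfl : z2 = j := hz
  have m1 := mem_Rc.1 (P.mem (fun _ he => he.1.2) (mem_Rc.2 (by simp only; omega)))
  refine ⟨z1, m1.1.1, m1.1.2, P.mono fun a b _ he => ?_⟩
  obtain ⟨he, h2, u, hu, hu'⟩ := he
  have h4 := h2 a (Sym2.mem_mk_left a b)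
  have h5 := h2 b (Sym2.mem_mk_right a b)
  refine ⟨?_, fun y hy => ?_⟩
  · simp only [op_mk, mem_Rc] at he ⊢
    omega
  · rw [hy, Sym2.mem_iff] at hu
    rcases hu with rfl | rfl <;> simp at hu'

theorem tr_tr (a b : ℤ) (p : Pt) : tr a b (tr (-a) (-b) p) = p := by
  simp [tr]

theorem nb_tr (a b : ℤ) (p q : Pt) (h : Nb p q) : Nb (tr a b p) (tr a b q) := by
  simp only [nb_iff, tr] at h ⊢
  omega

/-- An arm, pulled back to the half grid. -/
theorem pull {p q : Pt} (hp : tr (-(m - (k - 1))) (-j) p ∈ HH n k)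
    (hD : p ∈ Rc (-n) (6 * h + n) j (2 * h + 1)) (hq : j + k - 1 ≤ q.2)
    (C : Con (OO w t n h j m) p q) :
    ∃ z, Rim n k z ∧ Con (fun e => Op (w ∘ Sym2.map (tr (m - (k - 1)) j)) t (HH n k) e ∧ e ≠ ee k)
      (tr (-(m - (k - 1))) (-j) p) z := by
  simp only [HH, mem_Rc, tr] at hp
  obtain ⟨z, hz, P⟩ := C.first
    (fun z => min (z.1 - (m - (k - 1))) (min (m - k + n - z.1) (j + k - 1 - z.2)))
    (fun a b hab => by have := nb_iff.1 hab; omega) (j := 0) (by omega) (by omega)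
  have m1 := mem_Rc.1 (P.mem (fun _ he => he.1.1.2) hD)
  refine ⟨tr (-(m - (k - 1))) (-j) z, ?_, P.map _ (nb_tr _ _) fun a b _ he => ?_⟩
  · simp only [Rim, HH, mem_Rc, tr]
    omega
  · obtain ⟨⟨he, h1⟩, h2, -⟩ := he
    have h4 := h2 a (Sym2.mem_mk_left a b)
    have h5 := h2 b (Sym2.mem_mk_right a b)
    have h6 : Sym2.map (tr (m - (k - 1)) j)
        s(tr (-(m - (k - 1))) (-j) a, tr (-(m - (k - 1))) (-j) b) = s(a, b) := by
      rw [Sym2.map_mk, tr_tr, tr_tr]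
    refine ⟨op_mk.2 ⟨?_, ?_, ?_⟩, fun e => lt_irrefl m (h1 m ?_)⟩
    · rw [Function.comp_apply, h6]
      exact he.1
    · simp only [op_mk, mem_Rc] at he
      simp only [HH, mem_Rc, tr]
      omega
    · simp only [op_mk, mem_Rc] at he
      simp only [HH, mem_Rc, tr]
      omega
    · rw [← h6, e, ee, Sym2.map_mk]
      simp only [tr]
      congr 2 <;> ring

end ArmP

open ArmP in
theorem p_arm (H1 : S_pl1) (H2 : S_pl2) : S_arm := by
  rintro w t n k h hk hn hn' hh ⟨x0, hx0, xa, hxa, W1⟩ ⟨x1, hx1, xb, hxb, W2⟩ ⟨y, hy, y', -, F⟩ hB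
  have ha := mem_Icc.1 hxa
  have hb := mem_Icc.1 hxb
  have C0 := (floor (n := n) H1 (by omega) (by omega) le_rfl (by omega) hx0 hy W1 F).trans
    (floor (n := n) H1 (by omega) (by omega) (by omega) le_rfl hx1 hy W2 F).symm
  obtain ⟨j, hj, hj', Cj, Cj'⟩ := exists_step (P := fun j =>
    Con (Op w t (Rc (-n) (6 * h + n) j (2 * h + 1))) (xa, 2 * h + 1) (xb, 2 * h + 1))
    (a := 0) (b := h + 1) (by omega) C0
    fun C => hB (window (by omega) (by omega) ha.1 ha.2 hb.1 C)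
  obtain ⟨m, -, -, Cm, Cm'⟩ := exists_step (P := fun m =>
    ¬ Con (OO w t n h j m) (xa, 2 * h + 1) (xb, 2 * h + 1)) (a := -n) (b := 6 * h + n) (by omega)
    (fun C => Cj' (proj (by simp only; omega) (by simp only; omega) C))
    (not_not.2 (Cj.mono fun a b _ he => ⟨he, fun x hx => by
      rw [hx] at he
      simp only [op_mk, mem_Rc] at he
      omega⟩))
  have hA : ((xa, 2 * h + 1) : Pt) ∈ Rc (-n) (6 * h + n) j (2 * h + 1) :=
    mem_Rc.2 (by simp only; omega)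
  have hBm : ((xb, 2 * h + 1) : Pt) ∈ Rc (-n) (6 * h + n) j (2 * h + 1) :=
    mem_Rc.2 (by simp only; omega)
  have star : ∀ x y, Con (OO w t n h j m) (xa, 2 * h + 1) (x, j) →
      Con (OO w t n h j m) (xb, 2 * h + 1) (y, j) → x < y := fun x y h1 h2 =>
    H2 (-n) (6 * h + n) j (2 * h + 1) x xa y xb _ _ (fun _ he => he.1.2) (fun _ he => he.1.2)
      (h1.mem (fun _ he => he.1.2) hA) (h2.mem (fun _ he => he.1.2) hBm) h1.symm h2.symm
      (fun ⟨z, h3, h4⟩ => Cm (h1.trans (h3.trans (h4.symm.trans h2.symm)))) (by omega)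
  have hadd := Con.add (q := (m, j)) (r := (m + 1, j))
    ((not_not.1 Cm').mono fun a b _ he => by
      by_cases e : s(a, b) = s((m, j), (m + 1, j))
      · exact Or.inr e
      · refine Or.inl ⟨he.1, fun x hx => lt_of_le_of_ne (Int.lt_add_one_iff.1 (he.2 x hx)) ?_⟩
        rintro rfl
        exact e hx) Cm
  obtain ⟨Pa, Pb⟩ := hadd.resolve_right fun h1 => by
    have := star _ _ h1.1 h1.2.symm
    omega
  obtain ⟨za, hza, -, Qa⟩ := wall (n := n) (m := m) (by omega) le_rfl (by omega) hj (by omega)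
    hxa W1
  obtain ⟨zb, -, hzb, Qb⟩ := wall (n := n) (m := m) (by omega) (by omega) le_rfl hj (by omega)
    hxb W2
  have hm := star _ _ Qa Pb.symm
  have hm' := star _ _ Pa Qb
  have e1 : tr (-(m - (k - 1))) (-j) (m, j) = (k - 1, 0) := by simp [tr]
  have e2 : tr (-(m - (k - 1))) (-j) (m + 1, j) = (k, 0) := by
    simp only [tr, Prod.mk.injEq]
    omega
  have e3 : tr (m - (k - 1)) j (k - 1, 0) = (m, j) := by simp [tr]
  have e4 : tr (m - (k - 1)) j (k, 0) = (m + 1, j) := by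
    simp only [tr, Prod.mk.injEq]
    omega
  refine ⟨m, mem_Ico.2 ⟨by omega, by omega⟩, j, mem_Icc.2 ⟨hj, by omega⟩, ?_, ?_, fun C => ?_⟩
  · rw [← e1]
    exact pull (by rw [e1]; simp only [HH, mem_Rc]; omega) (mem_Rc.2 (by simp only; omega))
      (by simp only; omega) Pa.symm
  · rw [← e2]
    exact pull (by rw [e2]; simp only [HH, mem_Rc]; omega) (mem_Rc.2 (by simp only; omega))
      (by simp only; omega) Pb
  · have C' : Con (fun e => Op w t (Rc (-n) (6 * h + n) j (2 * h + 1)) e ∧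
        e ≠ s((m, j), (m + 1, j))) (m, j) (m + 1, j) := by
      rw [← e3, ← e4]
      refine C.map _ (nb_tr _ _) fun a b _ he => ⟨op_mk.2 ⟨he.1.1, ?_, ?_⟩, fun e => he.2 ?_⟩
      · have h1 := (op_mk.1 he.1).2.1
        simp only [HH, mem_Rc, tr] at h1 ⊢
        omega
      · have h1 := (op_mk.1 he.1).2.2
        simp only [HH, mem_Rc, tr] at h1 ⊢
        omega
      · obtain ⟨a1, a2⟩ := a
        obtain ⟨b1, b2⟩ := b
        simp only [ee, tr, Sym2.eq_iff, Prod.mk.injEq] at e ⊢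
        omega
    have key := C'.ind (P := fun z => Con (OO w t n h j m) (xa, 2 * h + 1) z) Pa
      fun a b _ h1 h2 h3 => h3.tail h1 ⟨h2.1, fun x hx => by
        by_contra h4
        have h5 : x ≠ m := by
          rintro rfl
          exact h2.2 hx
        rcases Sym2.eq_iff.1 hx with ⟨rfl, -⟩ | ⟨rfl, -⟩
        · have := star _ _ h3 Pb.symm
          omega
        · have := star _ _ h3 Pb.symm
          omega⟩
    exact lt_irrefl _ (star _ _ key Pb.symm)

end Pool.Agent.P.MP_5fda20_pr.G
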