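import Pool.Agent.P.MP_5fda20_pr.G.Defs

/-! Crossing probabilities: invariance and gluing. -/

namespace Pool.Agent.P.MP_5fda20_pr.G

open Finset

namespace CrossP

variable {w : Wt} {t : ℕ} {a b c d a' b' : ℤ}

theorem con_iff {D D' : Finset Pt} (φ ψ : Pt → Pt) (h1 : ∀ p, ψ (φ p) = p) (h2 : ∀ p, φ (ψ p) = p)
    (n1 : ∀ p q, Nb p q → Nb (φ p) (φ q)) (n2 : ∀ p q, Nb p q → Nb (ψ p) (ψ q))
    (hD : ∀ p, p ∈ D ↔ φ p ∈ D') (p q : Pt) :
    Con (Op (w ∘ Sym2.map φ) t D) p q ↔ Con (Op w t D') (φ p) (φ q) := by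
  refine ⟨fun h => h.map φ n1 fun x y _ e => ⟨e.1, ?_⟩, fun h => ?_⟩
  · have := mk_mem_sym2_iff.1 e.2
    exact mk_mem_sym2_iff.2 ⟨(hD x).1 this.1, (hD y).1 this.2⟩
  · have := h.map (O' := Op (w ∘ Sym2.map φ) t D) ψ n2 fun x y _ e => ⟨by
      simpa [h2] using e.1, by
      have := mk_mem_sym2_iff.1 e.2
      exact mk_mem_sym2_iff.2 ⟨(hD _).2 (by rw [h2]; exact this.1),
        (hD _).2 (by rw [h2]; exact this.2)⟩⟩
    rwa [h1, h1] at this

theorem op_mono {D D' : Finset Pt} (h : D ⊆ D') {p q : Pt} (e : Con (Op w t D) p q) :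
    Con (Op w t D') p q := e.mono fun _ _ _ k => ⟨k.1, sym2_mono h k.2⟩

theorem rc_sub (h1 : a' ≤ a) (h2 : b ≤ b') : Rc a b c d ⊆ Rc a' b' c d := fun p hp => by
  rw [mem_Rc] at hp ⊢; omega

theorem lr_mono (h : LR w t a b c d) (h1 : a ≤ b') (h2 : b' ≤ b) : LR w t a b' c d := by
  obtain ⟨y, hy, y', -, e⟩ := h
  obtain ⟨z, hz, e'⟩ := e.first (fun z => -z.1) (fun p q n => by rw [nb_iff] at n; omega)
    (j := -b') (by simpa using h1) (by simpa using h2)
  have e2 : Con (Op w t (Rc a b' c d)) (a, y) z := e'.mono fun p q _ k => ⟨k.1.1, by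
    have k1 := mk_mem_sym2_iff.1 k.1.2
    have k2 := k.2.1 p (Sym2.mem_mk_left p q)
    have k3 := k.2.1 q (Sym2.mem_mk_right p q)
    rw [mk_mem_sym2_iff]
    simp only [mem_Rc] at k1 k2 k3 ⊢
    omega⟩
  have hm := mem_Rc.1 (e2.mem (fun _ k => k.2) (mem_Rc.2 ⟨⟨le_rfl, h1⟩, mem_Icc.1 hy⟩))
  refine ⟨y, hy, z.2, mem_Icc.2 hm.2, ?_⟩
  rwa [show b' = z.1 by omega] at e2 ⊢

theorem glue (hp : S_pl1) (h1 : LR w t a b c d) (h2 : TB w t a' b c d) (h3 : LR w t a' b' c d)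
    (l1 : a ≤ a') (l2 : b ≤ b') : LR w t a b' c d := by
  obtain ⟨y, hy, y', -, e1⟩ := h1
  obtain ⟨x, hx, x', -, e2⟩ := h2
  obtain ⟨u, hu, u', hu', e3⟩ := h3
  rw [mem_Icc] at hx hu
  have hy' := mem_Icc.1 hy
  obtain ⟨z, z1, z2⟩ := hp a b c d y y' x x' _ _ (fun _ k => k.2)
    (fun _ k => sym2_mono (rc_sub l1 le_rfl) k.2) (mem_Rc.2 (by simp only; omega))
    (mem_Rc.2 (by simp only; omega)) e1 e2
  obtain ⟨z', z3, z4⟩ := hp a' b' c d u u' x x' _ _ (fun _ k => k.2)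
    (fun _ k => sym2_mono (rc_sub le_rfl l2) k.2) (mem_Rc.2 (by simp only; omega))
    (mem_Rc.2 (by simp only; omega)) e3 e2
  exact ⟨y, hy, u', hu', (op_mono (rc_sub le_rfl l2) z1).trans
    ((op_mono (rc_sub l1 l2) (z2.symm.trans z4)).trans
      (op_mono (rc_sub l1 le_rfl) (z3.symm.trans e3)))⟩

end CrossP

open CrossP

theorem p_tr (hm : S_map) : S_tr := by
  intro D L t a c m h hL
  constructor
  · intro hD
    have k : ∀ p, p ∈ Rc 0 m 0 h ↔ tr a c p ∈ Rc a (a + m) c (c + h) := fun p => by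
      simp only [mem_Rc, tr]; omega
    have i1 : ∀ p, tr (-a) (-c) (tr a c p) = p := fun p => by simp [tr]
    rw [qc, ← hm _ D L (tr a c) _ hL (Function.LeftInverse.injective i1)
      (fun p hp => hD ((k p).1 hp)) (dep_LR t)]
    congr 1
    funext w
    simp only [LR, con_iff (tr a c) (tr (-a) (-c)) i1 (fun p => by simp [tr])
      (fun p q n => by simp only [nb_iff, tr] at n ⊢; omega)
      (fun p q n => by simp only [nb_iff, tr] at n ⊢; omega) k, tr, zero_add, add_comm m a, mem_Icc]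
    exact propext ⟨fun ⟨y, hy, y', hy', e⟩ => ⟨y - c, by omega, y' - c, by omega, by simpa using e⟩,
      fun ⟨y, hy, y', hy', e⟩ => ⟨y + c, by omega, y' + c, by omega, e⟩⟩
  · intro hD
    let φ : Pt → Pt := fun p => (p.2 + a, p.1 + c)
    let ψ : Pt → Pt := fun p => (p.2 - c, p.1 - a)
    have k : ∀ p, p ∈ Rc 0 m 0 h ↔ φ p ∈ Rc a (a + h) c (c + m) := fun p => by
      simp only [mem_Rc, φ]; omega
    have i1 : ∀ p, ψ (φ p) = p := fun p => by simp [φ, ψ]
    rw [qc, ← hm _ D L φ _ hL (Function.LeftInverse.injective i1)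
      (fun p hp => hD ((k p).1 hp)) (dep_LR t)]
    congr 1
    funext w
    simp only [LR, TB, con_iff φ ψ i1 (fun p => by simp [φ, ψ])
      (fun p q n => by simp only [nb_iff, φ] at n ⊢; omega)
      (fun p q n => by simp only [nb_iff, ψ] at n ⊢; omega) k, mem_Icc]
    simp only [φ, zero_add, add_comm m c]
    exact propext ⟨fun ⟨y, hy, y', hy', e⟩ => ⟨y - a, by omega, y' - a, by omega, by simpa using e⟩,
      fun ⟨y, hy, y', hy', e⟩ => ⟨y + a, by omega, y' + a, by omega, e⟩⟩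

theorem p_glue (hp : S_pl1) (ht : S_tr) : S_glue := by
  intro L t h hL hh
  have mono : ∀ m m', 0 ≤ m' → m' ≤ m → qc L t m h ≤ qc L t m' h := fun m m' h1 h2 => by
    have := (ht (Rc 0 m 0 h) L t 0 0 m' h hL).1
    simp only [zero_add] at this
    rw [← this (rc_sub le_rfl h2)]
    exact PP_mono fun w e => lr_mono e h1 h2
  refine ⟨mono, ?_⟩
  set D := Rc 0 (6 * h) 0 h
  have eA : ∀ a b, 0 ≤ a → b = a + 2 * h → b ≤ 6 * h →
      PP D L (fun w => ¬ LR w t a b 0 h) = 1 - qc L t (2 * h) h := fun a b h1 h2 h3 => by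
    have := (ht D L t a 0 (2 * h) h hL).1
    simp only [zero_add, ← h2] at this
    rw [PP_not hL, this (rc_sub h1 h3)]
  have eB : ∀ a b, 0 ≤ a → b = a + h → b ≤ 6 * h →
      PP D L (fun w => ¬ TB w t a b 0 h) ≤ 1 - qc L t (2 * h) h := fun a b h1 h2 h3 => by
    have := (ht D L t a 0 h h hL).2
    simp only [zero_add, ← h2] at this
    rw [PP_not hL, this (rc_sub h1 h3)]
    linarith [mono (2 * h) h hh.le (by omega)]
  have st : ∀ a b b', 0 ≤ a → b = a + h → b' = a + 2 * h → b' ≤ 6 * h →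
      PP D L (fun w => ¬ LR w t 0 b' 0 h) ≤
        PP D L (fun w => ¬ LR w t 0 b 0 h) + 2 * (1 - qc L t (2 * h) h) :=
    fun a b b' h1 h2 h3 h4 => by
      have a1 := PP_or (D := D) (L := L) (F := fun w => ¬ LR w t 0 b 0 h)
        (F' := fun w => ¬ TB w t a b 0 h ∨ ¬ LR w t a b' 0 h)
      have a2 := PP_or (D := D) (L := L) (F := fun w => ¬ TB w t a b 0 h)
        (F' := fun w => ¬ LR w t a b' 0 h)
      have a3 := PP_mono (D := D) (L := L) (F := fun w => ¬ LR w t 0 b' 0 h)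
        (F' := fun w => ¬ LR w t 0 b 0 h ∨ ¬ TB w t a b 0 h ∨ ¬ LR w t a b' 0 h) fun w e => by
          by_contra hn
          simp only [not_or, not_not] at hn
          exact e (glue hp hn.1 hn.2.1 hn.2.2 h1 (by omega))
      linarith [eA a b' h1 h3 h4, eB a b h1 h2 (by omega)]
  have s0 := eA 0 (2 * h) le_rfl (by omega) (by omega)
  have s1 := st h (2 * h) (3 * h) (by omega) (by omega) (by omega) (by omega)
  have s2 := st (2 * h) (3 * h) (4 * h) (by omega) (by omega) (by omega) (by omega)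
  have s3 := st (3 * h) (4 * h) (5 * h) (by omega) (by omega) (by omega) (by omega)
  have s4 := st (4 * h) (5 * h) (6 * h) (by omega) (by omega) (by omega) (by omega)
  have s5 : PP D L (fun w => ¬ LR w t 0 (6 * h) 0 h) = 1 - qc L t (6 * h) h := PP_not hL
  linarith

end Pool.Agent.P.MP_5fda20_pr.G
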