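import Pool.Agent.P.MP_5fda20_pr.G.Defs

/-! From a cut with lighter bypasses to a splittable minimum spanning tree. -/

namespace Pool.Agent.P.MP_5fda20_pr.G

open Finset SimpleGraph

theorem p_cut : S_cut := by
  intro V _ G W A u v hG hW hu hv hA h
  obtain ⟨T, hT⟩ := exists_mst hG W
  have h5 : ∀ x ∈ A, ∀ y ∉ A, T.Adj x y → s(x, y) = s(u, v) := fun x hx y hy hxy => by
    by_contra h1
    have h2 : ∀ z, Relation.ReflTransGen (fun p q => ∃ h' : G.Adj p q,
        W ⟨s(p, q), h'⟩ < W ⟨s(x, y), hT.1 hxy⟩) x z → (T.deleteEdges {s(x, y)}).Reachable x z := by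
      intro z hz
      induction hz with
      | refl => rfl
      | tail _ h3 ih =>
        exact ih.trans (by_contra fun h4 => (cut hW hT (e := ⟨s(x, y), hT.1 hxy⟩)
          (f := ⟨_, h3.1⟩) rfl rfl hxy h4).not_gt h3.2)
    exact isBridge_iff.1 (isAcyclic_iff_forall_adj_isBridge.1 hT.2.1.isAcyclic hxy)
      (h2 y (h x hx y hy (hT.1 hxy) h1))
  have h6 : ∀ x y, (T.deleteEdges {s(u, v)}).Reachable x y → (x ∈ A ↔ y ∈ A) := fun x y h => by
    rw [reachable_iff_reflTransGen] at h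
    induction h with
    | refl => rfl
    | tail _ h7 ih =>
      rw [deleteEdges_adj] at h7
      exact ih.trans ⟨fun h8 => by_contra fun h9 => h7.2 (h5 _ h8 _ h9 h7.1), fun h8 =>
        by_contra fun h9 => h7.2 (Sym2.eq_swap.trans (h5 _ h8 _ h9 h7.1.symm))⟩
  have h7 := two_cls hT.2.1.connected.preconnected u v
  refine ⟨T, hT, u, v, ?_, ?_, ?_⟩
  · obtain ⟨a, b, h1, h2, h3, -⟩ := sep_edge hT.2.1 A hu hv
    rw [← mem_edgeSet, ← h5 a h2 b h3 h1]
    exact h1
  · have : ((T.deleteEdges {s(u, v)}).connectedComponentMk u).supp = A := by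
      ext z
      rw [ConnectedComponent.mem_supp_iff, ConnectedComponent.eq]
      exact ⟨fun h => (h6 _ _ h).2 hu, fun h =>
        ((h7 z).resolve_right fun h8 => hv ((h6 _ _ h8).2 h)).symm⟩
    rw [this, hA]
  · have : ((T.deleteEdges {s(u, v)}).connectedComponentMk v).supp = Aᶜ := by
      ext z
      rw [ConnectedComponent.mem_supp_iff, ConnectedComponent.eq, Set.mem_compl_iff]
      exact ⟨fun h h8 => hv ((h6 _ _ h).1 h8), fun h =>
        ((h7 z).resolve_left fun h8 => h ((h6 _ _ h8).1 hu)).symm⟩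
    have h1 := Set.ncard_add_ncard_compl A
    rw [Nat.card_eq_fintype_card] at h1
    rw [this]
    omega

namespace Cut

variable {n : ℕ}

/-- Coordinates. -/
def co (x : Fin n × Fin n) : Pt := (x.1.val, x.2.val)

theorem co_inj : Function.Injective (co (n := n)) := fun x y h => by
  simp only [co, Prod.mk.injEq, Nat.cast_inj] at h
  exact Prod.ext (Fin.ext h.1) (Fin.ext h.2)

theorem co_mem (x : Fin n × Fin n) : co x ∈ Rc 0 (n - 1) 0 (n - 1) := by
  have := x.1.is_lt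
  have := x.2.is_lt
  simp only [mem_Rc, co]
  omega

theorem co_surj {p : Pt} (h : p ∈ Rc 0 (n - 1) 0 (n - 1)) : ∃ x : Fin n × Fin n, co x = p := by
  rw [mem_Rc] at h
  exact ⟨(⟨p.1.toNat, by omega⟩, ⟨p.2.toNat, by omega⟩), Prod.ext (Int.toNat_of_nonneg h.1.1)
    (Int.toNat_of_nonneg h.2.1)⟩

theorem adj_iff {x y : Fin n × Fin n} : (pathGraph n □ pathGraph n).Adj x y ↔ Nb (co x) (co y) := by
  simp only [boxProd_adj, pathGraph_adj, nb_iff, co, Fin.ext_iff]
  omega

/-- The edges of the grid graph as pairs of points. -/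
def ed (e : (pathGraph n □ pathGraph n).edgeSet) : (Rc 0 (n - 1) 0 (n - 1)).sym2 :=
  ⟨e.1.map co, mem_sym2_iff.2 fun y hy => by
    obtain ⟨x, -, rfl⟩ := Sym2.mem_map.1 hy
    exact co_mem x⟩

theorem ed_inj : Function.Injective (ed (n := n)) := fun _ _ h =>
  Subtype.ext (Sym2.map.injective co_inj (congrArg Subtype.val h))

end Cut

open Cut in
theorem p_real (hc : S_cut) : S_real := by
  classical
  intro n L u v hL hv
  have : NeZero L := ⟨hL.ne'⟩
  unfold pMST
  refine le_trans ?_ (@av_le_real _ L (_) _ _ _)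
  rw [← @av_comp_inj _ _ _ _ _ (_) _ _ _ _ ed_inj]
  refine av_mono fun ω => ind_mono ?_
  rintro ⟨A, h1, h2, h3, h4, h5⟩ W hW
  obtain ⟨u, rfl⟩ := co_surj (h1 h3)
  obtain ⟨v, rfl⟩ := co_surj hv
  have h6 : ∀ {x y : Fin n × Fin n} (h : (pathGraph n □ pathGraph n).Adj x y),
      ext ω s(co x, co y) = ((ω ∘ ed) ⟨s(x, y), h⟩).val := fun {x y} h =>
    dif_pos (ed (n := n) ⟨s(x, y), h⟩).2
  obtain ⟨m, rfl⟩ : ∃ m, n = m + 1 := ⟨n - 1, by have := u.1.is_lt; omega⟩
  refine hc _ _ W (co ⁻¹' A) u v ((pathGraph_connected m).boxProd (pathGraph_connected m))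
    (fun e => le_trans (by positivity) (hW e trivial).1) h3 h4 ?_ fun x hx y hy h h7 => ?_
  · rw [Set.ncard_preimage_of_injective_subset_range co_inj fun p hp => co_surj (h1 hp),
      Set.ncard_coe_finset, Fintype.card_prod, Fintype.card_fin]
    rw [sq] at h2
    exact_mod_cast h2
  have h8 := h5 _ hx _ (co_mem y) hy (adj_iff.1 h) fun h8 =>
    h7 (Sym2.map.injective co_inj h8)
  obtain ⟨z, h9, h10⟩ := h8.ind (P := fun z => ∃ z', co z' = z ∧ Relation.ReflTransGen
      (fun p q => ∃ h' : (pathGraph (m + 1) □ pathGraph (m + 1)).Adj p q,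
        W ⟨s(p, q), h'⟩ < W ⟨s(x, y), h⟩) x z') ⟨x, rfl, .refl⟩ (by
    rintro _ b - h9 h10 ⟨a, rfl, h11⟩
    obtain ⟨b, rfl⟩ := co_surj (mk_mem_sym2_iff.1 h10.1).2
    exact ⟨b, rfl, h11.tail ⟨adj_iff.2 h9, lt_of_box hW hW (by rw [← h6, ← h6]; exact h10.2)⟩⟩)
  exact co_inj h9 ▸ h10

end Pool.Agent.P.MP_5fda20_pr.G
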