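import Pool.Agent.P.MP_5fda20_pr.Meas

/-! A polynomial lower bound on grids: definitions, basic lemmas and the list of steps. -/

namespace Pool.Agent.P.MP_5fda20_pr.G

open Finset

noncomputable section

/-- Points of the square lattice. -/
abbrev Pt := ℤ × ℤ

/-- Weights on pairs of points. -/
abbrev Wt := Sym2 Pt → ℕ

/-- Neighbours. -/
def Nb (p q : Pt) : Prop := |p.1 - q.1| + |p.2 - q.2| = 1

/-- Joined by a lattice path of `O`-edges. -/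
def Con (O : Sym2 Pt → Prop) (p q : Pt) : Prop :=
  Relation.ReflTransGen (fun a b => Nb a b ∧ O s(a, b)) p q

/-- Rectangles. -/
def Rc (a b c d : ℤ) : Finset Pt := Icc a b ×ˢ Icc c d

/-- Open edges inside `D`. -/
def Op (w : Wt) (t : ℕ) (D : Finset Pt) (e : Sym2 Pt) : Prop := w e < t ∧ e ∈ D.sym2

/-- Left-right crossings. -/
def LR (w : Wt) (t : ℕ) (a b c d : ℤ) : Prop :=
  ∃ y ∈ Icc c d, ∃ y' ∈ Icc c d, Con (Op w t (Rc a b c d)) (a, y) (b, y')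

/-- Bottom-top crossings. -/
def TB (w : Wt) (t : ℕ) (a b c d : ℤ) : Prop :=
  ∃ x ∈ Icc a b, ∃ x' ∈ Icc a b, Con (Op w t (Rc a b c d)) (x, c) (x', d)

/-- `F` only depends on the weights in `S`. -/
def DepW (S : Set (Sym2 Pt)) (F : Wt → Prop) : Prop :=
  ∀ w w', (∀ e ∈ S, w e = w' e) → F w → F w'

/-- Extension by zero. -/
def ext {D : Finset Pt} {L : ℕ} (ω : D.sym2 → Fin L) : Wt :=
  fun e => if h : e ∈ D.sym2 then (ω ⟨e, h⟩).val else 0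

/-- Probability for independent uniform weights in `Fin L` on the pairs of points of `D`. -/
def PP (D : Finset Pt) (L : ℕ) (F : Wt → Prop) : ℝ := av fun ω : D.sym2 → Fin L => ind (F (ext ω))

/-- The crossing probability of a rectangle. -/
def qc (L t : ℕ) (a b : ℤ) : ℝ := PP (Rc 0 a 0 b) L fun w => LR w t 0 a 0 b

/-- The half grid. -/
def HH (n k : ℤ) : Finset Pt := Rc 0 (n - 1) 0 (k - 1)

/-- The left, right and upper sides of the half grid. -/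
def Rim (n k : ℤ) (z : Pt) : Prop := z ∈ HH n k ∧ (z.1 = 0 ∨ z.1 = n - 1 ∨ z.2 = k - 1)

/-- The central edge of the lower side. -/
def ee (k : ℤ) : Sym2 Pt := s((k - 1, 0), (k, 0))

/-- The edge on its right. -/
def rr (k : ℤ) : Sym2 Pt := s((k, 0), (k + 1, 0))

/-- The three arm event. -/
def Arm (w : Wt) (t : ℕ) (n k : ℤ) : Prop :=
  (∃ z, Rim n k z ∧ Con (fun e => Op w t (HH n k) e ∧ e ≠ ee k) (k - 1, 0) z) ∧
  (∃ z, Rim n k z ∧ Con (fun e => Op w t (HH n k) e ∧ e ≠ ee k) (k, 0) z) ∧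
  ¬ Con (fun e => Op w t (HH n k) e ∧ e ≠ ee k) (k - 1, 0) (k, 0)

/-- `A` is one side of the central edge. -/
def Side (w : Wt) (t : ℕ) (n k : ℤ) (A : Finset Pt) : Prop :=
  A ⊆ HH n k ∧ (∀ x, 0 ≤ x → x < n → ((x, 0) ∈ A ↔ x < k)) ∧
    ∀ p ∈ A, ∀ q ∈ HH n k, q ∉ A → Nb p q → s(p, q) ≠ ee k → t ≤ w s(p, q) ∧
      Con (fun g => g ∈ (HH n k).sym2 ∧ (g = ee k ∨ g = rr k ∨ w g < w s(p, q))) p q

/-- The least size of a side is `a`. -/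
def Sz (w : Wt) (t : ℕ) (n k : ℤ) (a : ℕ) : Prop :=
  (∃ A, A.card = a ∧ Side w t n k A) ∧ ∀ A, Side w t n k A → a ≤ A.card

/-- Translations. -/
def tr (m j : ℤ) (p : Pt) : Pt := (p.1 + m, p.2 + j)

/-- The position of the lower half. -/
def dn (n k : ℤ) (p : Pt) : Pt := (n - 1 - p.1, k - 1 - p.2)

/-- The light edges near the centre. -/
def Lt (n k : ℤ) : Finset (Sym2 Pt) :=
  if n = 2 * k then {s((k - 1, k), (k, k)), s((k, k), (k + 1, k)), s((k - 1, k - 1), (k - 2, k - 1)),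
    s((k - 1, k - 1), (k - 1, k)), s((k, k - 1), (k, k))}
  else {s((k - 1, k + 1), (k, k + 1)), s((k, k + 1), (k + 1, k + 1)), s((k, k - 1), (k - 1, k - 1)),
    s((k - 1, k - 1), (k - 1, k)), s((k - 1, k), (k - 1, k + 1)), s((k, k), (k, k + 1)),
    s((k, k), (k + 1, k)), s((k + 1, k), (k + 1, k - 1))}

/-- The heavy edges near the centre. -/
def Hv (n k : ℤ) : Finset (Sym2 Pt) :=
  if n = 2 * k then {s((k, k - 1), (k - 1, k - 1))}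
  else {s((k + 1, k - 1), (k, k - 1)), s((k - 1, k), (k, k)), s((k, k - 1), (k, k))}

/-- The final event. -/
def Fine (w : Wt) (s t : ℕ) (n k : ℤ) (a : ℕ) : Prop :=
  Sz (w ∘ Sym2.map (tr 0 (n - k))) t n k a ∧ Sz (w ∘ Sym2.map (dn n k)) t n k a ∧
    (∀ e ∈ Lt n k, w e < s) ∧ ∀ e ∈ Hv n k, s ≤ w e

/-- A balanced cut of the grid all of whose edges but one close a cycle of lighter edges. -/
def Cut (w : Wt) (n : ℤ) (u v : Pt) : Prop :=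
  ∃ A ⊆ Rc 0 (n - 1) 0 (n - 1), (A.card : ℤ) = n ^ 2 / 2 ∧ u ∈ A ∧ v ∉ A ∧
    ∀ p ∈ A, ∀ q ∈ Rc 0 (n - 1) 0 (n - 1), q ∉ A → Nb p q → s(p, q) ≠ s(u, v) →
      Con (fun g => g ∈ (Rc 0 (n - 1) 0 (n - 1)).sym2 ∧ w g < w s(p, q)) p q

variable {O O' : Sym2 Pt → Prop} {p p' q r : Pt} {a b c d : ℤ}

theorem mem_Rc : p ∈ Rc a b c d ↔ (a ≤ p.1 ∧ p.1 ≤ b) ∧ c ≤ p.2 ∧ p.2 ≤ d := by simp [Rc]

theorem Nb.symm (h : Nb p q) : Nb q p := by
  unfold Nb at *; rwa [abs_sub_comm q.1, abs_sub_comm q.2]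

theorem nb_iff : Nb p q ↔ (q.1 = p.1 + 1 ∧ q.2 = p.2) ∨ (q.1 = p.1 - 1 ∧ q.2 = p.2) ∨
    (q.1 = p.1 ∧ q.2 = p.2 + 1) ∨ (q.1 = p.1 ∧ q.2 = p.2 - 1) := by
  unfold Nb
  rcases abs_cases (p.1 - q.1) with h | h <;> rcases abs_cases (p.2 - q.2) with h' | h' <;> omega

theorem Con.refl (p : Pt) : Con O p p := Relation.ReflTransGen.refl

theorem Con.trans (h : Con O p q) (h' : Con O q r) : Con O p r := Relation.ReflTransGen.trans h h'

theorem Con.single (h : Nb p q) (h' : O s(p, q)) : Con O p q := Relation.ReflTransGen.single ⟨h, h'⟩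

theorem Con.tail (h : Con O p q) (h1 : Nb q r) (h2 : O s(q, r)) : Con O p r :=
  h.trans (.single h1 h2)

theorem Con.ind {P : Pt → Prop} (h : Con O p q) (h0 : P p)
    (hs : ∀ a b, Con O p a → Nb a b → O s(a, b) → P a → P b) : P q := by
  induction h with
  | refl => exact h0
  | tail h1 h2 ih => exact hs _ _ h1 h2.1 h2.2 ih

theorem Con.symm (h : Con O p q) : Con O q p :=
  h.ind (P := fun z => Con O z p) (.refl p) fun _ _ _ h1 h2 h3 =>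
    (Con.single h1.symm (Sym2.eq_swap ▸ h2)).trans h3

theorem Con.mono (h : Con O p q) (h' : ∀ a b, Nb a b → O s(a, b) → O' s(a, b)) : Con O' p q :=
  h.ind (.refl p) fun _ _ _ h1 h2 h3 => h3.tail h1 (h' _ _ h1 h2)

theorem Con.map (h : Con O p q) (φ : Pt → Pt) (h1 : ∀ a b, Nb a b → Nb (φ a) (φ b))
    (h2 : ∀ a b, Nb a b → O s(a, b) → O' s(φ a, φ b)) : Con O' (φ p) (φ q) :=
  h.ind (P := fun z => Con O' (φ p) (φ z)) (.refl _) fun _ _ _ h3 h4 h5 =>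
    h5.tail (h1 _ _ h3) (h2 _ _ h3 h4)

theorem Con.mem {D : Finset Pt} (h : Con O p q) (hO : ∀ e, O e → e ∈ D.sym2) (hp : p ∈ D) :
    q ∈ D := h.ind hp fun _ _ _ _ h2 _ => (mk_mem_sym2_iff.1 (hO _ h2)).2

/-- The part of a path before the first visit to a level of a Lipschitz function. -/
theorem Con.first (h : Con O p q) (φ : Pt → ℤ) (hφ : ∀ a b, Nb a b → φ a ≤ φ b + 1) {j : ℤ}
    (hp : j ≤ φ p) (hq : φ q ≤ j) : ∃ z, φ z = j ∧
      Con (fun e => O e ∧ (∀ a ∈ e, j ≤ φ a) ∧ ∃ a ∈ e, j < φ a) p z := by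
  refine (h.ind (P := fun y => (j < φ y ∧ Con (fun e => O e ∧ (∀ a ∈ e, j ≤ φ a) ∧
    ∃ a ∈ e, j < φ a) p y) ∨ ∃ z, φ z = j ∧ Con (fun e => O e ∧ (∀ a ∈ e, j ≤ φ a) ∧
    ∃ a ∈ e, j < φ a) p z) ?_ fun a b _ h1 h2 h3 => ?_).resolve_left fun h1 => by omega
  · exact hp.lt_or_eq.imp (fun h => ⟨h, .refl p⟩) fun h => ⟨p, h.symm, .refl p⟩
  · refine h3.elim (fun h3 => ?_) Or.inr
    have h4 := hφ a b h1
    have h5 := h3.2.tail h1 ⟨h2, by simp only [Sym2.mem_iff, forall_eq_or_imp, forall_eq]; omega,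
      a, Sym2.mem_mk_left a b, h3.1⟩
    exact (show j ≤ φ b by omega).lt_or_eq.imp (fun h => ⟨h, h5⟩) fun h => ⟨b, h.symm, h5⟩

/-- Adding one edge. -/
theorem Con.add (h : Con (fun e => O e ∨ e = s(q, r)) p p') (h' : ¬ Con O p p') :
    (Con O p q ∧ Con O r p') ∨ (Con O p r ∧ Con O q p') := by
  refine (h.ind (P := fun z => Con O p z ∨ (Con O p q ∧ Con O r z) ∨ (Con O p r ∧ Con O q z))
    (Or.inl (.refl p)) fun a b _ h1 h2 h3 => ?_).resolve_left h'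
  rcases h2 with h2 | h2
  · exact h3.imp (·.tail h1 h2) (Or.imp (And.imp_right (·.tail h1 h2)) (And.imp_right (·.tail h1 h2)))
  rcases Sym2.eq_iff.1 h2 with ⟨rfl, rfl⟩ | ⟨rfl, rfl⟩
  · rcases h3 with h3 | h3 | h3
    exacts [Or.inr (Or.inl ⟨h3, .refl _⟩), Or.inr (Or.inl ⟨h3.1, .refl _⟩), Or.inl h3.1]
  · rcases h3 with h3 | h3 | h3
    exacts [Or.inr (Or.inr ⟨h3, .refl _⟩), Or.inl h3.1, Or.inr (Or.inr ⟨h3.1, .refl _⟩)]

/-- A left-right path meets a bottom-top path. -/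
def S_pl1 : Prop := ∀ (a b c d y y' x x' : ℤ) (O O' : Sym2 Pt → Prop),
  (∀ e, O e → e ∈ (Rc a b c d).sym2) → (∀ e, O' e → e ∈ (Rc a b c d).sym2) →
  (a, y) ∈ Rc a b c d → (x, c) ∈ Rc a b c d → Con O (a, y) (b, y') → Con O' (x, c) (x', d) →
  ∃ z, Con O (a, y) z ∧ Con O' (x, c) z

/-- Disjoint bottom-top paths keep their order. -/
def S_pl2 : Prop := ∀ (a b c d x x' y y' : ℤ) (O O' : Sym2 Pt → Prop),
  (∀ e, O e → e ∈ (Rc a b c d).sym2) → (∀ e, O' e → e ∈ (Rc a b c d).sym2) →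
  (x, c) ∈ Rc a b c d → (y, c) ∈ Rc a b c d → Con O (x, c) (x', d) → Con O' (y, c) (y', d) →
  (¬ ∃ z, Con O (x, c) z ∧ Con O' (y, c) z) → x' < y' → x < y

/-- A path from the bottom to another side separates the bottom. -/
def S_pl3 : Prop := ∀ (a b c d x y y' : ℤ) (q : Pt) (O O' : Sym2 Pt → Prop),
  (∀ e, O e → e ∈ (Rc a b c d).sym2) → (∀ e, O' e → e ∈ (Rc a b c d).sym2) →
  (x, c) ∈ Rc a b c d → (y, c) ∈ Rc a b c d → (q.1 = a ∨ q.1 = b ∨ q.2 = d) → Con O (x, c) q →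
  Con O' (y, c) (y', c) → y ≤ x → x ≤ y' → ∃ z, Con O (x, c) z ∧ Con O' (y, c) z

/-- Change of the domain. -/
def S_map : Prop := ∀ (D D' : Finset Pt) (L : ℕ) (φ : Pt → Pt) (F : Wt → Prop), 0 < L →
  Function.Injective φ → (∀ p ∈ D, φ p ∈ D') → DepW D.sym2 F →
  PP D' L (fun w => F (w ∘ Sym2.map φ)) = PP D L F

/-- Independence, single edges, ties, and the change of the level. -/
def S_prob : Prop := ∀ (D : Finset Pt) (L : ℕ), 0 < L →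
  (∀ (S T : Set (Sym2 Pt)) (F F' : Wt → Prop), Disjoint S T → DepW S F → DepW T F' →
    PP D L (fun w => F w ∧ F' w) = PP D L F * PP D L F') ∧
  (∀ E ⊆ D.sym2, ∀ s ≤ L, PP D L (fun w => ∀ e ∈ E, w e < s) = ((s : ℝ) / L) ^ E.card) ∧
  (∀ E ⊆ D.sym2, ∀ s ≤ L, PP D L (fun w => ∀ e ∈ E, s ≤ w e) = (1 - (s : ℝ) / L) ^ E.card) ∧
  PP D L (fun w => ¬ Set.InjOn w D.sym2) ≤ (D.card : ℝ) ^ 4 / L ∧
  (∀ s : ℕ, PP D L (fun w => ∃ e ∈ D.sym2, w e = s) ≤ (D.card : ℝ) ^ 2 / L) ∧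
  ∀ F : Wt → Prop, (∀ w, (∀ e, w e < L) → F w) → PP D L F = 1

/-- Crossing probabilities only depend on the shape. -/
def S_tr : Prop := ∀ (D : Finset Pt) (L t : ℕ) (a c m h : ℤ), 0 < L →
  (Rc a (a + m) c (c + h) ⊆ D → PP D L (fun w => LR w t a (a + m) c (c + h)) = qc L t m h) ∧
  (Rc a (a + h) c (c + m) ⊆ D → PP D L (fun w => TB w t a (a + h) c (c + m)) = qc L t m h)

/-- Comparison of crossing probabilities. -/
def S_glue : Prop := ∀ (L t : ℕ) (h : ℤ), 0 < L → 0 < h →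
  (∀ m m', 0 ≤ m' → m' ≤ m → qc L t m h ≤ qc L t m' h) ∧
  1 - qc L t (6 * h) h ≤ 9 * (1 - qc L t (2 * h) h)

/-- The choice of the level. -/
def S_lev : Prop := ∀ (L : ℕ) (h : ℤ), 0 < h → 8 * (14 * (h : ℝ) ^ 2) ^ 2 ≤ L →
  ∃ t ≤ L, 3 / 4 ≤ qc L t (6 * h) h ∧ qc L t (6 * h) h ≤ 7 / 8

/-- The level is not small. -/
def S_low : Prop := ∀ (L t : ℕ) (h : ℤ), 0 < L → t ≤ L → 0 < h → 3 / 4 ≤ qc L t (6 * h) h → L ≤ 8 * t

/-- The lowest contact of two clusters. -/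
def S_arm : Prop := ∀ (w : Wt) (t : ℕ) (n k h : ℤ), 2 ≤ k → 2 * k ≤ n → n ≤ 2 * k + 1 → k ≤ h →
  TB w t 0 h 0 (2 * h + 1) → TB w t (5 * h) (6 * h) 0 (2 * h + 1) → LR w t 0 (6 * h) 0 h →
  ¬ LR w t (2 * h) (4 * h) (h + 1) (2 * h + 1) →
  ∃ m ∈ Ico 0 (6 * h), ∃ j ∈ Icc 0 h, Arm (w ∘ Sym2.map (tr (m - (k - 1)) j)) t n k

/-- The probability of the three arm event. -/
def S_parm : Prop := ∀ (L : ℕ) (n k : ℤ), 2 ≤ k → 2 * k ≤ n → n ≤ 2 * k + 1 →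
  8 * (14 * (k : ℝ) ^ 2) ^ 2 ≤ L →
  ∃ t ≤ L, L ≤ 8 * t ∧ 1 / (4000 * (k : ℝ) ^ 2) ≤ PP (HH n k) L fun w => Arm w t n k

/-- Kruskal's algorithm from two roots. -/
def S_kru : Prop := ∀ (w : Wt) (E : Finset (Sym2 Pt)) (u v : Pt), Nb u v → Set.InjOn w E →
  ∃ A B : Set Pt, u ∈ A ∧ v ∈ B ∧ Disjoint A B ∧
    (∀ p q, Nb p q → s(p, q) ∈ E → p ∈ A ∪ B → q ∈ A ∪ B) ∧
    (∀ p ∈ A, Con (fun e => e ∈ E ∧ ∀ z ∈ e, z ∈ A) u p) ∧
    (∀ p ∈ B, Con (fun e => e ∈ E ∧ ∀ z ∈ e, z ∈ B) v p) ∧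
    ∀ p ∈ A, ∀ q ∈ B, Nb p q → s(p, q) ∈ E →
      Con (fun g => g = s(u, v) ∨ (g ∈ E ∧ w g < w s(p, q))) p q

/-- The three arm event gives a side. -/
def S_side : Prop := ∀ (w : Wt) (t : ℕ) (n k : ℤ), 2 ≤ k → 2 * k ≤ n → n ≤ 2 * k + 1 →
  Set.InjOn w (HH n k).sym2 → Arm w t n k → ∃ A, Side w t n k A

/-- A cut with a single possible tree edge. -/
def S_cut : Prop := ∀ (V : Type) [Fintype V] (G : SimpleGraph V) (W : G.edgeSet → ℝ) (A : Set V)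
  (u v : V), G.Connected → (∀ e, 0 ≤ W e) → u ∈ A → v ∉ A → A.ncard = Fintype.card V / 2 →
  (∀ x ∈ A, ∀ y ∉ A, ∀ h : G.Adj x y, s(x, y) ≠ s(u, v) → Relation.ReflTransGen
    (fun p q => ∃ h' : G.Adj p q, W ⟨s(p, q), h'⟩ < W ⟨s(x, y), h⟩) x y) →
  ∃ T, IsMST G W T ∧ Splittable T

/-- The final event gives a balanced cut. -/
def S_fine : Prop := ∀ (w : Wt) (s t : ℕ) (n k : ℤ) (a : ℕ), 2 ≤ k → 2 * k ≤ n → n ≤ 2 * k + 1 →
  s ≤ t → Fine w s t n k a → Cut w n (k - 1, n - k) (k, n - k)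

/-- The probability of the final event. -/
def S_prod : Prop := ∀ (L s t : ℕ) (n k : ℤ) (a : ℕ), 2 ≤ k → 2 * k ≤ n → n ≤ 2 * k + 1 → 0 < L →
  L ≤ 8 * s → 2 * s ≤ L → 1 / 2 ^ 27 * PP (HH n k) L (fun w => Sz w t n k a) ^ 2 ≤
    PP (Rc 0 (n - 1) 0 (n - 1)) L fun w => Fine w s t n k a

open SimpleGraph in
/-- Back to real weights on the grid graph. -/
def S_real : Prop := ∀ (n L : ℕ) (u v : Pt), 0 < L → v ∈ Rc 0 (n - 1) 0 (n - 1) →
  PP (Rc 0 (n - 1) 0 (n - 1)) L (fun w => Cut w n u v) ≤ pMST (pathGraph n □ pathGraph n)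

theorem av_comp_inj {ι κ X : Type} [Fintype ι] [DecidableEq ι] [Fintype κ] [DecidableEq κ]
    [Fintype X] [Nonempty X] {j : κ → ι} (hj : Function.Injective j) (f : (κ → X) → ℝ) :
    av (fun ω : ι → X => f (ω ∘ j)) = av f := by
  classical
  let e := (Equiv.ofInjective j hj).arrowCongr (Equiv.refl X)
  have h := av_restrict (X := X) (fun i => i ∈ Set.range j) fun ρ => f (e.symm ρ)
  refine Eq.trans ?_ (h.trans ?_)
  · rfl
  · simp only [av]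
    rw [e.symm.sum_comp, Fintype.card_congr e]

variable {D : Finset Pt} {L : ℕ} {F F' : Wt → Prop}

theorem PP_nonneg : 0 ≤ PP D L F := av_nonneg fun _ => ind_nonneg _

theorem PP_mono (h : ∀ w, F w → F' w) : PP D L F ≤ PP D L F' :=
  av_mono fun _ => ind_mono (h _)

theorem PP_or : PP D L (fun w => F w ∨ F' w) ≤ PP D L F + PP D L F' := av_or_le _ _

theorem PP_not (h : 0 < L) : PP D L (fun w => ¬ F w) = 1 - PP D L F := by
  have : NeZero L := ⟨h.ne'⟩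
  simp only [PP, ind_not, av_sub, av_const]

theorem PP_le_one (h : 0 < L) : PP D L F ≤ 1 := by
  linarith [PP_not (D := D) (F := F) h, PP_nonneg (D := D) (L := L) (F := fun w => ¬ F w)]

theorem PP_exists {κ : Type*} (s : Finset κ) (P : κ → Wt → Prop) :
    PP D L (fun w => ∃ i ∈ s, P i w) ≤ ∑ i ∈ s, PP D L (P i) :=
  (av_mono fun _ => ind_exists_le _ _).trans_eq (av_sum _ _)

theorem dep_LR (t : ℕ) : DepW (Rc a b c d).sym2 fun w => LR w t a b c d :=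
  fun _ _ e ⟨y, h1, y', h2, h3⟩ =>
    ⟨y, h1, y', h2, h3.mono fun _ _ _ h => ⟨e _ h.2 ▸ h.1, h.2⟩⟩

theorem dep_TB (t : ℕ) : DepW (Rc a b c d).sym2 fun w => TB w t a b c d :=
  fun _ _ e ⟨y, h1, y', h2, h3⟩ =>
    ⟨y, h1, y', h2, h3.mono fun _ _ _ h => ⟨e _ h.2 ▸ h.1, h.2⟩⟩

end

end Pool.Agent.P.MP_5fda20_pr.G
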