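import Pool.Agent.P.MP_5fda20_pr.G.Defs

/-! Assembly of the lower bound on grids. -/

namespace Pool.Agent.P.MP_5fda20_pr.G

open Finset SimpleGraph

theorem grid_lower (h1 : S_parm) (h2 : S_side) (h3 : S_prob) (h4 : S_fine) (h5 : S_prod)
    (h6 : S_real) {n : ℕ} (hn : 4 ≤ n) :
    1 / 10 ^ 16 / (n : ℝ) ^ 6 ≤ pMST (pathGraph n □ pathGraph n) := by
  classical
  obtain ⟨k, k1, k2⟩ : ∃ k : ℕ, 2 * k ≤ n ∧ n ≤ 2 * k + 1 := ⟨n / 2, by omega, by omega⟩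
  have n4 : (4 : ℝ) ≤ n := by exact_mod_cast hn
  have k0 : (2 : ℝ) ≤ k := by exact_mod_cast (show 2 ≤ k by omega)
  have k3 : 2 * (k : ℝ) ≤ n := by exact_mod_cast k1
  have a0 : (2 : ℤ) ≤ k := by omega
  have a1 : 2 * (k : ℤ) ≤ n := by omega
  have a2 : (n : ℤ) ≤ 2 * k + 1 := by omega
  obtain ⟨s, hs⟩ : ∃ s : ℕ, s = 1000 * n ^ 10 := ⟨_, rfl⟩
  have s1 : ((8 * s : ℕ) : ℝ) = 8000 * n ^ 10 := by rw [hs]; push_cast; ring
  have L0 : 0 < 8 * s := by rw [hs]; positivity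
  have : NeZero (8 * s) := ⟨L0.ne'⟩
  obtain ⟨t, -, t1, t2⟩ := h1 (8 * s) n k a0 a1 a2 (by
    rw [s1]
    push_cast
    calc _ = 1568 * (k : ℝ) ^ 4 := by ring
      _ ≤ 8000 * (n : ℝ) ^ 4 := by gcongr <;> linarith
      _ ≤ _ := by gcongr <;> [linarith; norm_num])
  have hc : (HH n k).card = n * k := by simp [HH, Rc]
  have t3 := (h3 (HH n k) _ L0).2.2.2.1
  rw [s1, hc] at t3
  have b1 : 1 / (2000 * (n : ℝ) ^ 2) ≤
      ∑ a ∈ range (n ^ 2 + 1), PP (HH n k) (8 * s) fun w => Sz w t n k a := by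
    refine le_trans ?_ (PP_exists _ fun a w => Sz w t n k a)
    have b2 := (PP_mono (D := HH n k) (L := 8 * s) (F := fun w => Arm w t n k)
      (F' := fun w => ¬ Set.InjOn w (HH n k).sym2 ∨ ∃ a ∈ range (n ^ 2 + 1), Sz w t n k a)
      fun w h => or_iff_not_imp_left.2 fun hI => by
        obtain ⟨A, hA⟩ := h2 w t n k a0 a1 a2 (not_not.1 hI) h
        have ex : ∃ a, ∃ A : Finset Pt, A.card = a ∧ Side w t n k A := ⟨_, A, rfl, hA⟩
        refine ⟨Nat.find ex, mem_range.2 (Nat.lt_succ_of_le ((Nat.find_min' ex ⟨A, rfl, hA⟩).trans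
          ((card_le_card hA.1).trans ?_))), Nat.find_spec ex, fun B hB => Nat.find_min' ex ⟨B, rfl, hB⟩⟩
        rw [hc, sq]
        exact Nat.mul_le_mul_left _ (by omega)).trans PP_or
    have b3 : ((n * k : ℕ) : ℝ) ^ 4 / (8000 * n ^ 10) ≤ 1 / (2000 * (n : ℝ) ^ 2) := by
      rw [div_le_div_iff₀ (by positivity) (by positivity)]
      push_cast
      calc _ ≤ ((n : ℝ) * n) ^ 4 * (8000 * n ^ 2) := by gcongr <;> linarith
        _ = _ := by ring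
    have b4 : 1 / (1000 * (n : ℝ) ^ 2) ≤ 1 / (4000 * ((k : ℤ) : ℝ) ^ 2) := by
      push_cast
      refine one_div_le_one_div_of_le (by positivity) (by nlinarith)
    have b5 : 1 / (1000 * (n : ℝ) ^ 2) = 2 * (1 / (2000 * (n : ℝ) ^ 2)) := by field_simp; norm_num
    linarith
  have b2 : ∑ a ∈ range (n ^ 2 + 1), PP (Rc 0 (n - 1) 0 (n - 1)) (8 * s)
      (fun w => Fine w s t n k a) ≤ pMST (pathGraph n □ pathGraph n) := by
    refine le_trans ?_ (h6 n (8 * s) (k - 1, n - k) (k, n - k) L0 (mem_Rc.2 (by simp only; omega)))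
    simp only [PP, ← av_sum]
    refine av_mono fun ω => ?_
    rw [sum_ind_unique _ _ fun a _ b _ h h' => ?_]
    · exact ind_mono fun ⟨a, _, h⟩ => h4 _ s t n k a a0 a1 a2 (by omega) h
    · obtain ⟨A, rfl, hA⟩ := h.1.1
      obtain ⟨B, rfl, hB⟩ := h'.1.1
      exact le_antisymm (h.1.2 B hB) (h'.1.2 A hA)
  refine le_trans ?_ ((sum_le_sum fun a _ => h5 (8 * s) s t n k a a0 a1 a2 L0 le_rfl
    (by omega)).trans b2)
  have b3 := (pow_le_pow_left₀ (by positivity) b1 2).trans sq_sum_le_card_mul_sum_sq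
  rw [card_range] at b3
  push_cast at b3
  rw [← mul_sum]
  generalize ∑ a ∈ range (n ^ 2 + 1), (PP (HH n k) (8 * s) fun w => Sz w t n k a) ^ 2 = x at *
  have b4 : (1 / (2000 * (n : ℝ) ^ 2)) ^ 2 / (2 * n ^ 2) ≤ x := by
    have x0 : 0 ≤ x := by
      by_contra h
      nlinarith [sq_nonneg (1 / (2000 * (n : ℝ) ^ 2)), mul_pos (show (0 : ℝ) < n ^ 2 + 1 by positivity)
        (neg_pos.2 (not_le.1 h))]
    rw [div_le_iff₀ (by positivity)]
    nlinarith [mul_le_mul_of_nonneg_right (show (1 : ℝ) ≤ n ^ 2 by nlinarith) x0]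
  calc _ ≤ 1 / 2 ^ 27 * (1 / (8 * 10 ^ 6)) / (n : ℝ) ^ 6 := by gcongr; norm_num
    _ = 1 / 2 ^ 27 * ((1 / (2000 * (n : ℝ) ^ 2)) ^ 2 / (2 * n ^ 2)) := by field_simp; norm_num
    _ ≤ _ := by gcongr

end Pool.Agent.P.MP_5fda20_pr.G
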