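import Pool.Agent.P.MP_5fda20_pr.G.Defs

/-! The final event gives a balanced cut. -/

namespace Pool.Agent.P.MP_5fda20_pr.G

open Finset

namespace FineP

variable {n k : ℤ}

/-- Every heavy edge has a bypass of light edges. -/
theorem byp (hk : 2 ≤ k) (h : n = 2 * k ∨ n = 2 * k + 1) {a b : Pt} (hab : s(a, b) ∈ Hv n k) :
    Con (fun g => g ∈ (Rc 0 (n - 1) 0 (n - 1)).sym2 ∧ g ∈ Lt n k) a b := by
  have st : ∀ x y x' y' : ℤ, Nb (x, y) (x', y') → (x, y) ∈ Rc 0 (n - 1) 0 (n - 1) →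
      (x', y') ∈ Rc 0 (n - 1) 0 (n - 1) → s((x, y), (x', y')) ∈ Lt n k →
      Con (fun g => g ∈ (Rc 0 (n - 1) 0 (n - 1)).sym2 ∧ g ∈ Lt n k) (x, y) (x', y') :=
    fun _ _ _ _ h1 h2 h3 h4 => .single h1 ⟨mk_mem_sym2_iff.2 ⟨h2, h3⟩, h4⟩
  simp only [nb_iff, mem_Rc] at st
  rcases h with h | h
  · simp only [Lt, Hv, if_pos h, mem_insert, mem_singleton] at st hab ⊢
    have c1 := st k (k - 1) k k (by omega) (by omega) (by omega) (by simp only [or_true])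
    have c2 := st (k - 1) k k k (by omega) (by omega) (by omega) (by simp only [true_or])
    have c3 := st (k - 1) (k - 1) (k - 1) k (by omega) (by omega) (by omega)
      (by simp only [or_true, true_or])
    have c := c1.trans (c3.trans c2).symm
    rcases Sym2.eq_iff.1 hab with ⟨rfl, rfl⟩ | ⟨rfl, rfl⟩
    exacts [c, c.symm]
  · have h' : ¬ n = 2 * k := by omega
    simp only [Lt, Hv, if_neg h', mem_insert, mem_singleton] at st hab ⊢
    have c1 := st (k - 1) (k + 1) k (k + 1) (by omega) (by omega) (by omega)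
      (by simp only [true_or])
    have c2 := st k (k - 1) (k - 1) (k - 1) (by omega) (by omega) (by omega)
      (by simp only [or_true, true_or])
    have c3 := st (k - 1) (k - 1) (k - 1) k (by omega) (by omega) (by omega)
      (by simp only [or_true, true_or])
    have c4 := st (k - 1) k (k - 1) (k + 1) (by omega) (by omega) (by omega)
      (by simp only [or_true, true_or])
    have c5 := st k k k (k + 1) (by omega) (by omega) (by omega) (by simp only [or_true, true_or])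
    have c6 := st k k (k + 1) k (by omega) (by omega) (by omega) (by simp only [or_true, true_or])
    have c7 := st (k + 1) k (k + 1) (k - 1) (by omega) (by omega) (by omega)
      (by simp only [or_true])
    have d1 := c4.trans (c1.trans c5.symm)
    have d2 := c2.trans (c3.trans d1)
    have d3 := d2.trans (c6.trans c7)
    rcases hab with hab | hab | hab <;> rcases Sym2.eq_iff.1 hab with ⟨rfl, rfl⟩ | ⟨rfl, rfl⟩
    exacts [d3.symm, d3, d1, d1.symm, d2, d2.symm]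

theorem lt_up1 (h : n = 2 * k ∨ n = 2 * k + 1) : (ee k).map (tr 0 (n - k)) ∈ Lt n k := by
  rcases h with rfl | rfl
  · simp [Lt, ee, tr, two_mul]
  · have : 2 * k + 1 - k = k + 1 := by ring
    simp [Lt, ee, tr, this]

theorem lt_up2 (h : n = 2 * k ∨ n = 2 * k + 1) : (rr k).map (tr 0 (n - k)) ∈ Lt n k := by
  rcases h with rfl | rfl
  · simp [Lt, rr, tr, two_mul]
  · have : 2 * k + 1 - k = k + 1 := by ring
    simp [Lt, rr, tr, this]

theorem hv_dn (h : n = 2 * k ∨ n = 2 * k + 1) : (ee k).map (dn n k) ∈ Hv n k := by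
  rcases h with rfl | rfl
  · have h1 : 2 * k - 1 - (k - 1) = k := by ring
    have h2 : 2 * k - 1 - k = k - 1 := by ring
    simp [Hv, ee, dn, h1, h2]
  · have h1 : 2 * k - (k - 1) = k + 1 := by ring
    have h2 : 2 * k - k = k := by ring
    simp [Hv, ee, dn, h1, h2]

theorem lt_dn (h : n = 2 * k ∨ n = 2 * k + 1) : (rr k).map (dn n k) ∈ Lt n k := by
  rcases h with rfl | rfl
  · have h1 : 2 * k - 1 - (k + 1) = k - 2 := by ring
    have h2 : 2 * k - 1 - k = k - 1 := by ring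
    simp [Lt, rr, dn, h1, h2]
  · have h1 : 2 * k - (k + 1) = k - 1 := by ring
    have h2 : 2 * k - k = k := by ring
    simp [Lt, rr, dn, h1, h2]

theorem dn_dn (p : Pt) : dn n k (dn n k p) = p := by simp [dn]

theorem tr_tr (j : ℤ) (p : Pt) : tr 0 j (tr 0 (-j) p) = p := by simp [tr]

theorem tr_tr' (j : ℤ) (p : Pt) : tr 0 (-j) (tr 0 j p) = p := by simp [tr]

theorem nb_dn {p q : Pt} (h : Nb p q) : Nb (dn n k p) (dn n k q) := by
  simp only [nb_iff, dn] at h ⊢; omega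

theorem nb_tr {p q : Pt} (j : ℤ) (h : Nb p q) : Nb (tr 0 j p) (tr 0 j q) := by
  simp only [nb_iff, tr] at h ⊢; omega

/-- The glued side. -/
noncomputable def AA (n k : ℤ) (A1 A2 : Finset Pt) : Finset Pt :=
  A1.image (tr 0 (n - k)) ∪ ((HH n k \ A2).image (dn n k) ∪ Rc 0 (k - 1) k (n - k - 1))

theorem mem_im1 {A : Finset Pt} {j : ℤ} {p : Pt} : p ∈ A.image (tr 0 j) ↔ tr 0 (-j) p ∈ A := by
  rw [mem_image]
  exact ⟨fun ⟨q, h1, h2⟩ => by rw [← h2, tr_tr']; exact h1, fun h => ⟨_, h, tr_tr j p⟩⟩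

theorem mem_im2 {A : Finset Pt} {p : Pt} : p ∈ A.image (dn n k) ↔ dn n k p ∈ A := by
  rw [mem_image]
  exact ⟨fun ⟨q, h1, h2⟩ => by rw [← h2, dn_dn]; exact h1, fun h => ⟨_, h, dn_dn p⟩⟩

theorem mem_AA {A1 A2 : Finset Pt} {p : Pt} : p ∈ AA n k A1 A2 ↔ tr 0 (-(n - k)) p ∈ A1 ∨
    (dn n k p ∈ HH n k ∧ dn n k p ∉ A2) ∨ p ∈ Rc 0 (k - 1) k (n - k - 1) := by
  simp only [AA, mem_union, mem_im1, mem_im2, mem_sdiff]

theorem mem_H1 {j : ℤ} {p : Pt} : tr 0 j p ∈ HH n k ↔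
    (0 ≤ p.1 ∧ p.1 ≤ n - 1) ∧ 0 ≤ p.2 + j ∧ p.2 + j ≤ k - 1 := by
  simp only [HH, mem_Rc, tr, add_zero]

theorem mem_H2 {p : Pt} : dn n k p ∈ HH n k ↔
    (0 ≤ p.1 ∧ p.1 ≤ n - 1) ∧ 0 ≤ p.2 ∧ p.2 ≤ k - 1 := by
  simp only [HH, mem_Rc, dn]; omega

theorem card_AA (hk : 2 ≤ k) (h : n = 2 * k ∨ n = 2 * k + 1) {A1 A2 : Finset Pt}
    (h1 : A1 ⊆ HH n k) (h2 : A2 ⊆ HH n k) (hc : A1.card = A2.card) :
    ((AA n k A1 A2).card : ℤ) = n ^ 2 / 2 := by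
  have i1 : Function.Injective (tr 0 (n - k)) := Function.LeftInverse.injective (tr_tr' (n - k))
  have i2 : Function.Injective (dn n k) := Function.LeftInverse.injective dn_dn
  rw [AA, card_union_of_disjoint, card_union_of_disjoint, card_image_of_injective _ i1,
    card_image_of_injective _ i2, card_sdiff_of_subset h2, hc]
  · have h3 := card_le_card h2
    have h4 : ((HH n k).card : ℤ) = n * k := by
      simp only [HH, Rc, card_product, Int.card_Icc, Nat.cast_mul]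
      rw [Int.toNat_of_nonneg (by omega), Int.toNat_of_nonneg (by omega)]; ring
    have h5 : ((Rc 0 (k - 1) k (n - k - 1)).card : ℤ) = k * (n - 2 * k) := by
      simp only [Rc, card_product, Int.card_Icc, Nat.cast_mul]
      rw [Int.toNat_of_nonneg (by omega), Int.toNat_of_nonneg (by omega)]; ring
    rw [Nat.cast_add, Nat.cast_add, Nat.cast_sub h3, h4, h5]
    rcases h with rfl | rfl
    · have : (2 * k) ^ 2 = 2 * (2 * k * k) := by ring
      rw [this, Int.mul_ediv_cancel_left _ two_ne_zero]; ring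
    · have : (2 * k + 1) ^ 2 = 1 + 2 * (2 * k * k + 2 * k) := by ring
      rw [this, Int.add_mul_ediv_left _ _ two_ne_zero]; ring
  · refine disjoint_left.2 fun p h3 h4 => ?_
    have := mem_H2.1 (mem_sdiff.1 (mem_im2.1 h3)).1
    rw [mem_Rc] at h4; omega
  · refine disjoint_left.2 fun p h3 h4 => ?_
    have h5 := mem_H1.1 (h1 (mem_im1.1 h3))
    rcases mem_union.1 h4 with h4 | h4
    · have := mem_H2.1 (mem_sdiff.1 (mem_im2.1 h4)).1
      omega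
    · rw [mem_Rc] at h4; omega

variable {A1 A2 : Finset Pt} {w : Wt} {s t : ℕ} {p q : Pt}

theorem sub_AA (hn : 2 * k ≤ n) (hk : 2 ≤ k) (s1 : A1 ⊆ HH n k) :
    AA n k A1 A2 ⊆ Rc 0 (n - 1) 0 (n - 1) := fun p hp => by
  rw [mem_Rc]
  rcases mem_AA.1 hp with h1 | h1 | h1
  · have := mem_H1.1 (s1 h1); omega
  · have := mem_H2.1 h1.1; omega
  · rw [mem_Rc] at h1; omega

theorem m1 (hn : 2 * k ≤ n) (hp : n - k ≤ p.2) :
    p ∈ AA n k A1 A2 ↔ tr 0 (-(n - k)) p ∈ A1 := by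
  rw [mem_AA]
  refine or_iff_left ?_
  rintro (h | h)
  · have := mem_H2.1 h.1; omega
  · rw [mem_Rc] at h; omega

theorem m2 (hn : 2 * k ≤ n) (s1 : A1 ⊆ HH n k) (hp : p ∈ Rc 0 (n - 1) 0 (n - 1))
    (hp' : p.2 ≤ k - 1) : p ∈ AA n k A1 A2 ↔ dn n k p ∉ A2 := by
  rw [mem_Rc] at hp
  rw [mem_AA]
  refine ⟨?_, fun h1 => Or.inr (Or.inl ⟨mem_H2.2 (by omega), h1⟩)⟩
  rintro (h1 | h1 | h1)
  · have := mem_H1.1 (s1 h1); omega
  · exact h1.2
  · rw [mem_Rc] at h1; omega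

theorem m3 (hn : 2 * k ≤ n) (s1 : A1 ⊆ HH n k) (r1 : ∀ x, 0 ≤ x → x < n → ((x, 0) ∈ A1 ↔ x < k))
    (r2 : ∀ x, 0 ≤ x → x < n → ((x, 0) ∈ A2 ↔ x < k)) (hp : p ∈ Rc 0 (n - 1) 0 (n - 1))
    (h1 : k - 1 ≤ p.2) (h2 : p.2 ≤ n - k) :
    p ∈ AA n k A1 A2 ↔ p.1 < k ∨ (p.2 = k - 1 ∧ p.1 ≤ n - 1 - k) := by
  have hp' := mem_Rc.1 hp
  rcases h2.lt_or_eq with h2 | h2
  · rcases h1.lt_or_eq with h1 | h1
    · rw [mem_AA]
      refine ⟨?_, fun h3 => Or.inr (Or.inr (mem_Rc.2 (by omega)))⟩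
      rintro (h3 | h3 | h3)
      · have := mem_H1.1 (s1 h3); omega
      · have := mem_H2.1 h3.1; omega
      · rw [mem_Rc] at h3; omega
    · have h3 : dn n k p = (n - 1 - p.1, 0) := by simp only [dn, ← h1, sub_self]
      rw [m2 hn s1 hp h1.ge, h3, r2 _ (by omega) (by omega)]; omega
  · have h3 : tr 0 (-(n - k)) p = (p.1, 0) := by simp only [tr, h2, add_zero, add_neg_cancel]
    rw [m1 hn h2.ge, h3, r1 _ (by omega) (by omega)]; omega

theorem hv (hk : 2 ≤ k) (h : n = 2 * k ∨ n = 2 * k + 1) (hL : ∀ e ∈ Lt n k, w e < s) {x : ℕ}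
    (hx : s ≤ x) (hab : s(p, q) ∈ Hv n k) :
    Con (fun g => g ∈ (Rc 0 (n - 1) 0 (n - 1)).sym2 ∧ w g < x) p q :=
  (byp hk h hab).mono fun _ _ _ h1 => ⟨h1.1, (hL _ h1.2).trans_le hx⟩

theorem sym_tr (hn : 2 * k ≤ n) (h : s(p, q) ∈ (HH n k).sym2) :
    s(tr 0 (n - k) p, tr 0 (n - k) q) ∈ (Rc 0 (n - 1) 0 (n - 1)).sym2 := by
  have h5 := mk_mem_sym2_iff.1 h
  simp only [HH, mem_Rc] at h5
  refine mk_mem_sym2_iff.2 ?_
  simp only [mem_Rc, tr]; omega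

theorem sym_dn (hn : 2 * k ≤ n) (h : s(p, q) ∈ (HH n k).sym2) :
    s(dn n k p, dn n k q) ∈ (Rc 0 (n - 1) 0 (n - 1)).sym2 := by
  have h5 := mk_mem_sym2_iff.1 h
  simp only [HH, mem_Rc] at h5
  refine mk_mem_sym2_iff.2 ?_
  simp only [mem_Rc, dn]; omega

/-- Paths in the upper half. -/
theorem up (h : n = 2 * k ∨ n = 2 * k + 1) (hL : ∀ e ∈ Lt n k, w e < s) {x : ℕ} (hx : s ≤ x)
    (h2 : Con (fun g => g ∈ (HH n k).sym2 ∧
      (g = ee k ∨ g = rr k ∨ (w ∘ Sym2.map (tr 0 (n - k))) g < x)) p q) (hn : 2 * k ≤ n) :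
    Con (fun g => g ∈ (Rc 0 (n - 1) 0 (n - 1)).sym2 ∧ w g < x) (tr 0 (n - k) p)
      (tr 0 (n - k) q) := by
  refine h2.map _ (fun _ _ => nb_tr _) fun a b _ h4 => ⟨sym_tr hn h4.1, ?_⟩
  rw [← Sym2.map_mk]
  rcases h4.2 with h6 | h6 | h6
  · rw [h6]; exact (hL _ (lt_up1 h)).trans_le hx
  · rw [h6]; exact (hL _ (lt_up2 h)).trans_le hx
  · exact h6

/-- Paths in the lower half. -/
theorem down (hk : 2 ≤ k) (h : n = 2 * k ∨ n = 2 * k + 1) (hL : ∀ e ∈ Lt n k, w e < s) {x : ℕ}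
    (hx : s ≤ x) (h2 : Con (fun g => g ∈ (HH n k).sym2 ∧
      (g = ee k ∨ g = rr k ∨ (w ∘ Sym2.map (dn n k)) g < x)) p q) (hn : 2 * k ≤ n) :
    Con (fun g => g ∈ (Rc 0 (n - 1) 0 (n - 1)).sym2 ∧ w g < x) (dn n k p) (dn n k q) := by
  refine h2.ind (P := fun z => Con (fun g => g ∈ (Rc 0 (n - 1) 0 (n - 1)).sym2 ∧ w g < x)
    (dn n k p) (dn n k z)) (.refl _) fun a b _ h4 h5 h6 => ?_
  rcases h5.2 with h9 | h9 | h9
  · refine h6.trans (hv hk h hL hx ?_)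
    rw [← Sym2.map_mk, h9]; exact hv_dn h
  · refine h6.tail (nb_dn h4) ⟨sym_dn hn h5.1, ?_⟩
    rw [← Sym2.map_mk, h9]; exact (hL _ (lt_dn h)).trans_le hx
  · exact h6.tail (nb_dn h4) ⟨sym_dn hn h5.1, h9⟩

/-- Edges that meet the middle row. -/
theorem mid (h : n = 2 * k ∨ n = 2 * k + 1) (hpq : Nb p q) (hu : ¬ (n - k ≤ p.2 ∧ n - k ≤ q.2))
    (hd : ¬ (p.2 ≤ k - 1 ∧ q.2 ≤ k - 1)) (h1 : p.1 < k ∨ (p.2 = k - 1 ∧ p.1 ≤ n - 1 - k))
    (h2 : ¬ (q.1 < k ∨ (q.2 = k - 1 ∧ q.1 ≤ n - 1 - k))) : s(p, q) ∈ Hv n k := by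
  have hb := nb_iff.1 hpq
  have h3 : n = 2 * k + 1 ∧ q.1 = k ∧ q.2 = k ∧
      ((p.1 = k - 1 ∧ p.2 = k) ∨ (p.1 = k ∧ p.2 = k - 1)) := by
    rcases h with h | h <;> rcases hb with hb | hb | hb | hb <;> omega
  obtain ⟨h4, h5, h6, h7⟩ := h3
  have h' : ¬ n = 2 * k := by omega
  have hq : q = (k, k) := Prod.ext h5 h6
  rcases h7 with h7 | h7
  · have hp : p = (k - 1, k) := Prod.ext h7.1 h7.2
    simp only [Hv, if_neg h', hp, hq, mem_insert, mem_singleton, or_true, true_or]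
  · have hp : p = (k, k - 1) := Prod.ext h7.1 h7.2
    simp only [Hv, if_neg h', hp, hq, mem_insert, mem_singleton, or_true]

theorem rows (hpq : Nb p q) (hu : ¬ (n - k ≤ p.2 ∧ n - k ≤ q.2))
    (hd : ¬ (p.2 ≤ k - 1 ∧ q.2 ≤ k - 1)) :
    (k - 1 ≤ p.2 ∧ p.2 ≤ n - k) ∧ k - 1 ≤ q.2 ∧ q.2 ≤ n - k := by
  rcases nb_iff.1 hpq with hb | hb | hb | hb <;> omega

theorem mem_up (hq : q ∈ Rc 0 (n - 1) 0 (n - 1)) (h : n - k ≤ q.2) :
    tr 0 (-(n - k)) q ∈ HH n k := by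
  rw [mem_Rc] at hq
  exact mem_H1.2 (by omega)

theorem mem_dn (hq : q ∈ Rc 0 (n - 1) 0 (n - 1)) (h : q.2 ≤ k - 1) : dn n k q ∈ HH n k := by
  rw [mem_Rc] at hq
  exact mem_H2.2 (by omega)

theorem tr_ee : (ee k).map (tr 0 (n - k)) = s((k - 1, n - k), (k, n - k)) := by
  simp only [ee, tr, Sym2.map_mk, add_zero, zero_add]

theorem root (hk : 2 ≤ k) (hn : 2 * k ≤ n) (r1 : ∀ x, 0 ≤ x → x < n → ((x, 0) ∈ A1 ↔ x < k)) :
    (k - 1, n - k) ∈ AA n k A1 A2 ∧ (k, n - k) ∉ AA n k A1 A2 := by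
  have h3 : ∀ x : ℤ, tr 0 (-(n - k)) (x, n - k) = (x, 0) := fun x => by
    simp only [tr, add_zero, add_neg_cancel]
  rw [m1 hn le_rfl, m1 hn le_rfl, h3, h3, r1 _ (by omega) (by omega), r1 _ (by omega) (by omega)]
  omega

end FineP

open FineP in
theorem p_fine : S_fine := by
  rintro w s t n k a hk hn hn' hst ⟨⟨⟨A1, c1, s1, r1, e1⟩, -⟩, ⟨⟨A2, c2, s2, r2, e2⟩, -⟩, hL, hH⟩
  have h : n = 2 * k ∨ n = 2 * k + 1 := by omega
  refine ⟨AA n k A1 A2, sub_AA hn hk s1, card_AA hk h s1 s2 (c1.trans c2.symm),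
    (root hk hn r1).1, (root hk hn r1).2, fun p hp q hq hq' hpq hne => ?_⟩
  have hp' := sub_AA hn hk s1 hp
  by_cases hu : n - k ≤ p.2 ∧ n - k ≤ q.2
  · have hw : (w ∘ Sym2.map (tr 0 (n - k))) s(tr 0 (-(n - k)) p, tr 0 (-(n - k)) q) =
        w s(p, q) := by
      rw [Function.comp_apply, Sym2.map_mk, tr_tr, tr_tr]
    obtain ⟨h1, h2⟩ := e1 _ ((m1 hn hu.1).1 hp) _ (mem_up hq hu.2)
      (fun h1 => hq' ((m1 hn hu.2).2 h1)) (nb_tr _ hpq) fun h1 => hne (by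
        rw [← tr_ee, ← h1, Sym2.map_mk, tr_tr, tr_tr])
    rw [hw] at h1 h2
    have h3 := up h hL (hst.trans h1) h2 hn
    rwa [tr_tr, tr_tr] at h3
  by_cases hd : p.2 ≤ k - 1 ∧ q.2 ≤ k - 1
  · have hw : (w ∘ Sym2.map (dn n k)) s(dn n k q, dn n k p) = w s(p, q) := by
      rw [Function.comp_apply, Sym2.map_mk, dn_dn, dn_dn, Sym2.eq_swap]
    by_cases he : s(dn n k q, dn n k p) = ee k
    · have h1 : s(p, q) ∈ Hv n k := by
        have := hv_dn h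
        rwa [← he, Sym2.map_mk, dn_dn, dn_dn, Sym2.eq_swap] at this
      exact hv hk h hL (hH _ h1) h1
    obtain ⟨h1, h2⟩ := e2 _ (not_not.1 fun h1 => hq' ((m2 hn s1 hq hd.2).2 h1)) _
      (mem_dn hp' hd.1) ((m2 hn s1 hp' hd.1).1 hp) (nb_dn hpq.symm) he
    rw [hw] at h1 h2
    have h3 := down hk h hL (hst.trans h1) h2 hn
    rw [dn_dn, dn_dn] at h3
    exact h3.symm
  have hr := rows hpq hu hd
  have h3 := mid h hpq hu hd ((m3 hn s1 r1 r2 hp' hr.1.1 hr.1.2).1 hp)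
    ((m3 hn s1 r1 r2 hq hr.2.1 hr.2.2).not.1 hq')
  exact hv hk h hL (hH _ h3) h3

end Pool.Agent.P.MP_5fda20_pr.G
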