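import Pool.Agent.P.MP_5fda20_pr.G.Defs

/-! The choice of the level. -/

namespace Pool.Agent.P.MP_5fda20_pr.G

open Finset

namespace Lev

variable {D : Finset Pt} {L t : ℕ}

theorem PP_false {F : Wt → Prop} (hp : S_prob) (hL : 0 < L) (h : ∀ w, ¬ F w) : PP D L F = 0 := by
  have h1 := (hp D L hL).2.2.2.2.2 (fun w => ¬ F w) fun w _ => h w
  rw [PP_not hL] at h1
  linarith

theorem row {w : Wt} {a b : ℤ} (hb : 0 ≤ b) (hw : ∀ e, w e < t) (n : ℕ) (hn : (n : ℤ) ≤ a) :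
    Con (Op w t (Rc 0 a 0 b)) (0, 0) (n, 0) := by
  induction n with
  | zero => exact .refl _
  | succ n ih =>
    push_cast at hn ⊢
    refine (ih (by omega)).tail (by simp [nb_iff]) ⟨hw _, mk_mem_sym2_iff.2 ⟨?_, ?_⟩⟩ <;>
      simp only [mem_Rc] <;> omega

/-- An open path of `k` distinct edges outside `S` starts at `p`. -/
def Sa (D : Finset Pt) (t : ℕ) (w : Wt) : ℕ → Set (Sym2 Pt) → Pt → Prop
  | 0, _, _ => True
  | k + 1, S, p => ∃ q, Nb p q ∧ s(p, q) ∉ S ∧ s(p, q) ∈ D.sym2 ∧ w s(p, q) < t ∧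
      Sa D t w k (insert s(p, q) S) q

theorem Sa.dep : ∀ (k : ℕ) (S : Set (Sym2 Pt)) (p : Pt), DepW Sᶜ fun w => Sa D t w k S p
  | 0, _, _ => fun _ _ _ _ => trivial
  | k + 1, S, p => fun w w' e ⟨q, h1, h2, h3, h4, h5⟩ =>
    ⟨q, h1, h2, h3, e _ h2 ▸ h4, Sa.dep k _ q w w'
      (fun g hg => e g fun h => hg (Set.mem_insert_of_mem _ h)) h5⟩

theorem prob (hp : S_prob) (hL : 0 < L) (ht : t ≤ L) :
    ∀ (k : ℕ) (S : Set (Sym2 Pt)) (p : Pt), PP D L (fun w => Sa D t w k S p) ≤ (4 * (t / L)) ^ k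
  | 0, _, _ => by simpa using PP_le_one hL
  | k + 1, S, p => by
    have h0 : (0 : ℝ) ≤ t / L := by positivity
    let N : Finset Pt := {(p.1 + 1, p.2), (p.1 - 1, p.2), (p.1, p.2 + 1), (p.1, p.2 - 1)}
    have hN : (N.card : ℝ) ≤ 4 := by exact_mod_cast card_le_four
    have h1 : ∀ q ∈ N, PP D L (fun w => s(p, q) ∈ D.sym2 ∧ (∀ e ∈ ({s(p, q)} : Finset _), w e < t) ∧
        Sa D t w k (insert s(p, q) S) q) ≤ t / L * (4 * (t / L)) ^ k := by
      intro q _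
      by_cases hq : s(p, q) ∈ D.sym2
      · refine (PP_mono fun w h => h.2).trans ?_
        rw [(hp D L hL).1 {s(p, q)} (insert s(p, q) S)ᶜ
          (fun w => ∀ e ∈ ({s(p, q)} : Finset _), w e < t) (fun w => Sa D t w k (insert s(p, q) S) q)
          (Set.disjoint_left.2 fun e he h => h (he ▸ Set.mem_insert _ _))
          (fun w w' e h g hg => e g (by simpa using hg) ▸ h g hg) (Sa.dep k _ q),
          (hp D L hL).2.1 _ (singleton_subset_iff.2 hq) t ht, card_singleton, pow_one]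
        exact mul_le_mul_of_nonneg_left (prob hp hL ht k _ q) h0
      · rw [PP_false hp hL fun w h => hq h.1]
        positivity
    refine (PP_mono (F' := fun w => ∃ q ∈ N, s(p, q) ∈ D.sym2 ∧
      (∀ e ∈ ({s(p, q)} : Finset _), w e < t) ∧ Sa D t w k (insert s(p, q) S) q) ?_).trans
      ((PP_exists N _).trans ((sum_le_card_nsmul _ _ _ h1).trans ?_))
    · rintro w ⟨q, h2, -, h3, h4, h5⟩
      refine ⟨q, ?_, h3, by simpa using h4, h5⟩
      simp only [N, mem_insert, mem_singleton, Prod.ext_iff]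
      exact nb_iff.1 h2
    · rw [nsmul_eq_mul, pow_succ', mul_assoc]
      exact mul_le_mul_of_nonneg_right hN (by positivity)

/-- The part of a path after its last visit to the starting point. -/
theorem last {O : Sym2 Pt → Prop} {p q : Pt} (h : Con O p q) (hq : q ≠ p) :
    ∃ r, Nb p r ∧ O s(p, r) ∧ Con (fun e => O e ∧ p ∉ e) r q := by
  refine (h.ind (P := fun z => z = p ∨ ∃ r, Nb p r ∧ O s(p, r) ∧ Con (fun e => O e ∧ p ∉ e) r z)
    (Or.inl rfl) fun a b _ h1 h2 h3 => ?_).resolve_left hq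
  by_cases hb : b = p
  · exact Or.inl hb
  by_cases ha : a = p
  · subst ha
    exact Or.inr ⟨b, h1, h2, .refl _⟩
  obtain ⟨r, r1, r2, r3⟩ := h3.resolve_left ha
  refine Or.inr ⟨r, r1, r2, r3.tail h1 ⟨h2, ?_⟩⟩
  rw [Sym2.mem_iff, not_or]
  exact ⟨fun e => ha e.symm, fun e => hb e.symm⟩

theorem sa_of_con {w : Wt} {q : Pt} : ∀ (k : ℕ) (S : Set (Sym2 Pt)) (p : Pt),
    Con (fun e => Op w t D e ∧ e ∉ S) p q → p.1 + k ≤ q.1 → Sa D t w k S p
  | 0, _, _, _, _ => trivial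
  | k + 1, S, p, h, hk => by
    push_cast at hk
    obtain ⟨r, r1, r2, r3⟩ := last h (by rintro rfl; omega)
    refine ⟨r, r1, r2.2, r2.1.2, r2.1.1, sa_of_con k _ r (r3.mono fun a b _ h1 => ⟨h1.1.1, ?_⟩) ?_⟩
    · rintro (h2 | h2)
      · exact h1.2 (h2 ▸ Sym2.mem_mk_left p r)
      · exact h1.1.2 h2
    · rw [nb_iff] at r1
      omega

end Lev

open Lev

theorem p_lev (hp : S_prob) : S_lev := by
  intro L h hh hL
  have h1 : (1 : ℝ) ≤ h := by exact_mod_cast hh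
  have hL0 : (0 : ℝ) < L := lt_of_lt_of_le (by positivity) hL
  have hL1 : 0 < L := by exact_mod_cast hL0
  have hc : ((Rc 0 (6 * h) 0 h).card : ℝ) ≤ 14 * (h : ℝ) ^ 2 := by
    have e : ((Rc 0 (6 * h) 0 h).card : ℤ) = (6 * h + 1) * (h + 1) := by
      rw [Rc, card_product, Nat.cast_mul, Int.card_Icc_of_le _ _ (by omega),
        Int.card_Icc_of_le _ _ (by omega)]
      ring
    have e' : ((Rc 0 (6 * h) 0 h).card : ℝ) = (6 * h + 1) * (h + 1) := by exact_mod_cast e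
    rw [e']
    nlinarith
  have htop : 3 / 4 ≤ qc L L (6 * h) h := by
    rw [qc, (hp _ L hL1).2.2.2.2.2 _ fun w hw => ?_]
    · norm_num
    · refine ⟨0, mem_Icc.2 ⟨le_rfl, hh.le⟩, 0, mem_Icc.2 ⟨le_rfl, hh.le⟩, ?_⟩
      have := row (a := 6 * h) hh.le hw (6 * h).toNat (by omega)
      rwa [Int.toNat_of_nonneg (by omega)] at this
  have hbot : qc L 0 (6 * h) h = 0 := PP_false hp hL1 fun w ⟨y, _, y', _, hc⟩ => by
    have := hc.ind (P := fun z => z.1 = 0) rfl fun a b _ _ h2 _ => absurd h2.1 (Nat.not_lt_zero _)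
    simp only at this
    omega
  have hstep : ∀ t, qc L (t + 1) (6 * h) h ≤ qc L t (6 * h) h + 1 / 8 := by
    intro t
    have h2 := (hp (Rc 0 (6 * h) 0 h) L hL1).2.2.2.2.1 t
    have h3 : ((Rc 0 (6 * h) 0 h).card : ℝ) ^ 2 / L ≤ 1 / 8 := by
      rw [div_le_iff₀ hL0]
      have := pow_le_pow_left₀ (by positivity) hc 2
      linarith
    refine (PP_mono (F' := fun w => LR w t 0 (6 * h) 0 h ∨
      ∃ e ∈ (Rc 0 (6 * h) 0 h).sym2, w e = t) ?_).trans (PP_or.trans ?_)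
    · rintro w ⟨y, h4, y', h5, h6⟩
      by_cases h7 : ∃ e ∈ (Rc 0 (6 * h) 0 h).sym2, w e = t
      · exact Or.inr h7
      · exact Or.inl ⟨y, h4, y', h5, h6.mono fun a b _ h8 =>
          ⟨lt_of_le_of_ne (Nat.lt_succ_iff.1 h8.1) fun e => h7 ⟨_, h8.2, e⟩, h8.2⟩⟩
    · unfold qc
      linarith
  classical
  have hex : ∃ t, 3 / 4 ≤ qc L t (6 * h) h := ⟨L, htop⟩
  refine ⟨Nat.find hex, Nat.find_min' hex htop, Nat.find_spec hex, ?_⟩
  rcases e : Nat.find hex with _ | t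
  · rw [hbot]; norm_num
  · have := Nat.find_min hex (show t < Nat.find hex by omega)
    linarith [hstep t]

theorem p_low (hp : S_prob) : S_low := by
  intro L t h hL ht hh hq
  by_contra hn
  obtain ⟨n, rfl⟩ := Int.eq_ofNat_of_zero_le hh.le
  have hL0 : (0 : ℝ) < L := by exact_mod_cast hL
  have h1 : 4 * ((t : ℝ) / L) ≤ 1 / 2 := by
    have : (8 * t : ℝ) ≤ L := by exact_mod_cast (not_le.1 hn).le
    rw [← mul_div_assoc, div_le_iff₀ hL0]
    linarith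
  have h2 : qc L t (6 * n) n ≤ (n + 1) * (1 / 2) ^ (6 * n) := by
    refine (PP_mono (F' := fun w => ∃ y ∈ Icc (0 : ℤ) n,
      Sa (Rc 0 (6 * n) 0 n) t w (6 * n) ∅ (0, y)) ?_).trans ((PP_exists _ _).trans
      ((sum_le_card_nsmul _ _ _ fun y _ => (prob hp hL ht _ _ _).trans
        (pow_le_pow_left₀ (by positivity) h1 _)).trans ?_))
    · rintro w ⟨y, h4, y', -, h6⟩
      exact ⟨y, h4, sa_of_con _ _ _ (h6.mono fun _ _ _ h7 => ⟨h7, Set.notMem_empty _⟩) (by simp)⟩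
    · simp
  have h3 : 2 * (n + 1) ≤ 2 ^ (6 * n) := by
    have h4 : n + 1 ≤ 2 ^ n := Nat.lt_two_pow_self
    have h5 : 2 ^ (n + 1) ≤ 2 ^ (6 * n) := Nat.pow_le_pow_right two_pos (by omega)
    rw [pow_succ] at h5
    omega
  have h6 : (2 * (n + 1) : ℝ) ≤ 2 ^ (6 * n) := by exact_mod_cast h3
  rw [one_div, inv_pow, ← div_eq_mul_inv] at h2
  have h7 : ((n : ℝ) + 1) / 2 ^ (6 * n) ≤ 1 / 2 := by
    rw [div_le_iff₀ (by positivity)]
    linarith
  linarith

end Pool.Agent.P.MP_5fda20_pr.G
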