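import Pool.Agent.P.MP_5fda20_pr.G.Defs

/-! The probability of the three arm event. -/

namespace Pool.Agent.P.MP_5fda20_pr.G

open Finset

namespace Parm

variable {S S' : Set (Sym2 Pt)} {F F' : Wt → Prop} {D : Finset Pt} {L : ℕ}

theorem dep_mono (h : DepW S F) (hS : S ⊆ S') : DepW S' F :=
  fun w w' e => h w w' fun x hx => e x (hS hx)

theorem dep_not (h : DepW S F) : DepW S fun w => ¬ F w :=
  fun w w' e hn hl => hn (h w' w (fun x hx => (e x hx).symm) hl)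

theorem dep_and (h : DepW S F) (h' : DepW S F') : DepW S fun w => F w ∧ F' w :=
  fun w w' e hh => ⟨h w w' e hh.1, h' w w' e hh.2⟩

theorem con_dep {w w' : Wt} {t : ℕ} {g : Sym2 Pt} {p q : Pt} (e : ∀ x ∈ D.sym2, w x = w' x)
    (h : Con (fun x => Op w t D x ∧ x ≠ g) p q) : Con (fun x => Op w' t D x ∧ x ≠ g) p q :=
  h.mono fun _ _ _ h => ⟨⟨e _ h.1.2 ▸ h.1.1, h.1.2⟩, h.2⟩

theorem dep_Arm (t : ℕ) (n k : ℤ) : DepW (HH n k).sym2 fun w => Arm w t n k :=
  fun _ _ e ⟨⟨z, a, b⟩, ⟨z', a', b'⟩, c⟩ =>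
    ⟨⟨z, a, con_dep e b⟩, ⟨z', a', con_dep e b'⟩,
      fun h => c (con_dep (fun x hx => (e x hx).symm) h)⟩

theorem PP_and (hL : 0 < L) : PP D L F + PP D L F' - 1 ≤ PP D L fun w => F w ∧ F' w := by
  have h1 := PP_not (D := D) (F := fun w => F w ∧ F' w) hL
  have h2 := PP_not (D := D) (F := F) hL
  have h3 := PP_not (D := D) (F := F') hL
  have h4 := PP_or (D := D) (L := L) (F := fun w => ¬ F w) (F' := fun w => ¬ F' w)
  have h5 := PP_mono (D := D) (L := L) (F := fun w => ¬ (F w ∧ F' w))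
    (F' := fun w => ¬ F w ∨ ¬ F' w) fun _ => not_and_or.1
  linarith

theorem away {A B : Finset Pt} (h : ∀ p ∈ A, p ∉ B) :
    (A.sym2 : Set (Sym2 Pt)) ⊆ (B.sym2 : Set (Sym2 Pt))ᶜ := by
  intro e he he'
  induction e using Sym2.ind with
  | h p q => exact h p (mk_mem_sym2_iff.1 he).1 (mk_mem_sym2_iff.1 he').1

theorem num {x y z u v r : ℝ} (q1 : 3 / 4 ≤ x) (q2 : x ≤ 7 / 8) (g2 : 1 - x ≤ 9 * (1 - y))
    (g3 : x ≤ z) (a1 : z + x - 1 ≤ u) (a2 : z + u - 1 ≤ v) (a3 : r = 1 - y) :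
    1 / 4 * (1 / 72) ≤ v * r :=
  mul_le_mul (by linarith) (by linarith) (by norm_num) (by linarith)

theorem num' {k P : ℝ} (kr : 2 ≤ k) (P0 : 0 ≤ P) (h : 1 / 4 * (1 / 72) ≤ 6 * k * ((k + 1) * P)) :
    1 / (4000 * k ^ 2) ≤ P := by
  rw [div_le_iff₀ (by positivity)]
  have a8 : 6 * k * ((k + 1) * P) ≤ 9 * k ^ 2 * P := by
    rw [← mul_assoc]
    exact mul_le_mul_of_nonneg_right (by nlinarith) P0
  have a9 : 0 ≤ k ^ 2 * P := by positivity
  linarith

end Parm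

open Parm in
theorem p_parm (h1 : S_map) (h2 : S_prob) (h3 : S_tr) (h4 : S_glue) (h5 : S_lev) (h6 : S_low)
    (h7 : S_arm) : S_parm := by
  intro L n k k2 n1 n2 hL
  have k0 : 0 < k := by omega
  have kr : (2 : ℝ) ≤ k := by exact_mod_cast k2
  have L0 : 0 < L := by
    have : (0 : ℝ) < L := lt_of_lt_of_le (by positivity) hL
    exact_mod_cast this
  obtain ⟨t, ht, q1, q2⟩ := h5 L k k0 hL
  refine ⟨t, ht, h6 L t k L0 ht k0 q1, ?_⟩
  obtain ⟨g1, g2⟩ := h4 L t k L0 k0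
  have g3 := g1 (6 * k) (2 * k + 1) (by omega) (by omega)
  set D := Rc (-n) (6 * k + n) 0 (2 * k + 1) with hD
  have sub : ∀ a b c d, -n ≤ a → b ≤ 6 * k + n → 0 ≤ c → d ≤ 2 * k + 1 → Rc a b c d ⊆ D :=
    fun a b c d _ _ _ _ p hp => by rw [hD]; rw [mem_Rc] at hp ⊢; omega
  have e1 := (h3 D L t 0 0 (2 * k + 1) k L0).2 (sub _ _ _ _ (by omega) (by omega) le_rfl (by omega))
  have e2 := (h3 D L t (5 * k) 0 (2 * k + 1) k L0).2
    (sub _ _ _ _ (by omega) (by omega) le_rfl (by omega))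
  have e3 := (h3 D L t 0 0 (6 * k) k L0).1 (sub _ _ _ _ (by omega) (by omega) le_rfl (by omega))
  have e4 := (h3 D L t (2 * k) (k + 1) (2 * k) k L0).1
    (sub _ _ _ _ (by omega) (by omega) (by omega) (by omega))
  rw [show 5 * k + k = 6 * k by ring] at e2
  rw [show 2 * k + 2 * k = 4 * k by ring, show k + 1 + k = 2 * k + 1 by ring] at e4
  simp only [zero_add] at e1 e2 e3
  have a1 := PP_and (D := D) (F := fun w => TB w t (5 * k) (6 * k) 0 (2 * k + 1))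
    (F' := fun w => LR w t 0 (6 * k) 0 k) L0
  have a2 := PP_and (D := D) (F := fun w => TB w t 0 k 0 (2 * k + 1))
    (F' := fun w => TB w t (5 * k) (6 * k) 0 (2 * k + 1) ∧ LR w t 0 (6 * k) 0 k) L0
  have a3 := PP_not (D := D) (F := fun w => LR w t (2 * k) (4 * k) (k + 1) (2 * k + 1)) L0
  have a4 := (h2 D L L0).1 _ _ _ _ disjoint_compl_left
    (dep_and (dep_mono (dep_TB (a := 0) (b := k) (c := 0) (d := 2 * k + 1) t)
        (away fun p hp hp' => by rw [mem_Rc] at hp hp'; omega))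
      (dep_and (dep_mono (dep_TB (a := 5 * k) (b := 6 * k) (c := 0) (d := 2 * k + 1) t)
          (away fun p hp hp' => by rw [mem_Rc] at hp hp'; omega))
        (dep_mono (dep_LR (a := 0) (b := 6 * k) (c := 0) (d := k) t)
          (away fun p hp hp' => by rw [mem_Rc] at hp hp'; omega))))
    (dep_not (dep_LR (a := 2 * k) (b := 4 * k) (c := k + 1) (d := 2 * k + 1) t))
  rw [e2, e3] at a1
  rw [e1] at a2
  rw [e4] at a3
  have a5 := (num q1 q2 g2 g3 a1 a2 a3).trans_eq a4.symm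
  have a6 := a5.trans (PP_mono fun w hw =>
    h7 w t n k k k2 n1 n2 le_rfl hw.1.1 hw.1.2.1 hw.1.2.2 hw.2)
  set P := PP (HH n k) L fun w => Arm w t n k with hP
  have a7 : PP D L (fun w => ∃ m ∈ Ico 0 (6 * k), ∃ j ∈ Icc 0 k,
      Arm (w ∘ Sym2.map (tr (m - (k - 1)) j)) t n k) ≤ ∑ _m ∈ Ico 0 (6 * k), ∑ _j ∈ Icc 0 k, P := by
    refine (PP_exists _ _).trans (sum_le_sum fun m hm => (PP_exists _ _).trans
      (sum_le_sum fun j hj => (h1 (HH n k) D L _ _ L0 ?_ ?_ (dep_Arm t n k)).le))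
    · intro p q e
      simp only [tr, Prod.mk.injEq] at e
      exact Prod.ext (by omega) (by omega)
    · intro p hp
      rw [mem_Ico] at hm
      rw [mem_Icc] at hj
      rw [HH, mem_Rc] at hp
      rw [hD, mem_Rc]
      simp only [tr]
      omega
  have c1 : ((Ico (0 : ℤ) (6 * k)).card : ℝ) = 6 * k := by
    have : ((Ico (0 : ℤ) (6 * k)).card : ℤ) = 6 * k := by
      rw [Int.card_Ico_of_le _ _ (by omega), sub_zero]
    exact_mod_cast this
  have c2 : ((Icc (0 : ℤ) k).card : ℝ) = k + 1 := by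
    have : ((Icc (0 : ℤ) k).card : ℤ) = k + 1 := by
      rw [Int.card_Icc_of_le _ _ (by omega), sub_zero]
    exact_mod_cast this
  rw [sum_const, sum_const, nsmul_eq_mul, nsmul_eq_mul, c1, c2] at a7
  exact num' kr PP_nonneg (a6.trans a7)

end Pool.Agent.P.MP_5fda20_pr.G
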