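import Pool.Agent.P.MP_5fda20_pr.G.Defs

/-! Change of the domain, independence and single edges. -/

namespace Pool.Agent.P.MP_5fda20_pr.G

open Finset

noncomputable section

namespace Prob

variable {D : Finset Pt} {L : ℕ}

theorem ext_of {e : Sym2 Pt} (h : e ∈ D.sym2) (ω : D.sym2 → Fin L) :
    ext ω e = (ω ⟨e, h⟩).val := dif_pos h

theorem dep {S : Set (Sym2 Pt)} {F : Wt → Prop} (h : DepW S F) :
    Dep {i : D.sym2 | i.1 ∈ S} fun ω : D.sym2 → Fin L => ind (F (ext ω)) := fun ω ω' e => by
  have : ∀ x ∈ S, ext ω x = ext ω' x := fun x hx => by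
    unfold ext
    split_ifs with hD
    · rw [e ⟨x, hD⟩ hx]
    · rfl
  exact ind_congr ⟨h _ _ this, h _ _ fun x hx => (this x hx).symm⟩

theorem single [NeZero L] {e : Sym2 Pt} (h : e ∈ D.sym2) (P : ℕ → Prop) :
    PP D L (fun w => P (w e)) = av fun x : Fin L => ind (P x.val) := by
  simp only [PP, ext_of h]
  exact av_apply (⟨e, h⟩ : D.sym2) fun x : Fin L => ind (P x.val)

theorem all [NeZero L] {E : Finset (Sym2 Pt)} (hE : E ⊆ D.sym2) (P : ℕ → Prop) :
    PP D L (fun w => ∀ e ∈ E, P (w e)) = (av fun x : Fin L => ind (P x.val)) ^ E.card := by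
  simp only [PP, ind_forall]
  rw [av_prod_of_dep E (fun e => {i : D.sym2 | i.1 ∈ ({e} : Set (Sym2 Pt))})
    (f := fun e ω => ind (P (ext ω e)))
    (fun e _ => dep (F := fun w => P (w e)) fun _ _ h => (congrArg P (h e rfl)).mp)
    fun e _ e' _ hne => Set.disjoint_left.2 fun i h h' => hne (h.symm.trans h'), ← prod_const]
  exact prod_congr rfl fun e he => single (hE he) P

theorem av_lt {s : ℕ} (h : s ≤ L) : (av fun x : Fin L => ind (x.val < s)) = (s : ℝ) / L := by
  rw [av, Fin.sum_univ_eq_sum_range fun x => ind (x < s), sum_ind_eq_card, Fintype.card_fin]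
  have : (range L).filter (fun x => x < s) = range s := by
    ext x
    simp only [mem_filter, mem_range]
    omega
  rw [this, card_range]

theorem av_eq (s : ℕ) : (av fun x : Fin L => ind (x.val = s)) ≤ 1 / L := by
  rw [av, Fin.sum_univ_eq_sum_range fun x => ind (x = s), sum_ind_eq_card, Fintype.card_fin]
  gcongr
  have : ((range L).filter fun x => x = s).card ≤ 1 := card_le_one.2 fun a ha b hb =>
    Eq.trans (mem_filter.1 ha).2 (mem_filter.1 hb).2.symm
  exact_mod_cast this

theorem card_le (D : Finset Pt) : (D.sym2.card : ℝ) ≤ (D.card : ℝ) ^ 2 := by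
  have : D.sym2.card ≤ D.card ^ 2 := by
    rw [sym2_eq_image, sq, ← card_product]
    exact card_image_le
  exact_mod_cast this

end Prob

open Prob

theorem p_map : S_map := by
  intro D D' L φ F hL hφ hD hF
  have : NeZero L := ⟨hL.ne'⟩
  have hm : ∀ e ∈ D.sym2, Sym2.map φ e ∈ D'.sym2 := fun e he =>
    mem_sym2_iff.2 fun y hy => by
      obtain ⟨x, hx, rfl⟩ := Sym2.mem_map.1 hy
      exact hD x (mem_sym2_iff.1 he x hx)
  let j : D.sym2 → D'.sym2 := fun e => ⟨Sym2.map φ e.1, hm _ e.2⟩
  have hj : Function.Injective j := fun a b h =>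
    Subtype.ext (Sym2.map.injective hφ (congrArg Subtype.val h))
  rw [PP, PP, ← av_comp_inj hj]
  refine av_congr fun ω => ?_
  have : ∀ e ∈ (D.sym2 : Set (Sym2 Pt)), (ext ω ∘ Sym2.map φ) e = ext (ω ∘ j) e := fun e he => by
    rw [Function.comp_apply, ext_of (hm e he), ext_of he]
    rfl
  exact ind_congr ⟨hF _ _ this, hF _ _ fun e he => (this e he).symm⟩

theorem p_prob : S_prob := by
  intro D L hL
  have : NeZero L := ⟨hL.ne'⟩
  refine ⟨fun S T F F' h hF hF' => ?_, fun E hE s hs => ?_, fun E hE s hs => ?_, ?_,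
    fun s => ?_, fun F hF => ?_⟩
  · simp only [PP, ind_and]
    exact av_mul_of_dep (dep hF) (dep hF')
      (Set.disjoint_left.2 fun i h1 h2 => Set.disjoint_left.1 h h1 h2)
  · rw [all hE (· < s), av_lt hs]
  · rw [all hE (s ≤ ·), ← av_lt hs, ← av_const (Ω := Fin L) 1, ← av_sub]
    simp only [← ind_not, not_lt]
  · refine le_trans (av_mono fun ω => ind_mono (Q := ¬ Function.Injective ω)
      fun h hi => h fun a ha b hb hab => ?_) (av_not_inj.trans ?_)
    · rw [ext_of ha, ext_of hb] at hab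
      exact congrArg Subtype.val (hi (Fin.ext hab))
    · rw [Fintype.card_coe, Fintype.card_fin, show 4 = 2 * 2 from rfl, pow_mul]
      gcongr
      exact card_le D
  · refine (PP_exists D.sym2 fun e w => w e = s).trans ?_
    refine (sum_le_card_nsmul _ _ (1 / (L : ℝ))
      fun e he => (single he (· = s)).trans_le (av_eq s)).trans ?_
    rw [nsmul_eq_mul, mul_one_div]
    gcongr
    exact card_le D
  · refine Eq.trans (av_congr fun ω => ind_of (hF _ fun e => ?_)) (av_const 1)
    unfold ext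
    split_ifs
    exacts [Fin.is_lt _, hL]

end

end Pool.Agent.P.MP_5fda20_pr.G
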