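import Pool.Agent.P.MP_5fda20_pr.G.Defs

/-! The probability of the final event. -/

namespace Pool.Agent.P.MP_5fda20_pr.G

open Finset

namespace ProdP

theorem dep_mono {S T : Set (Sym2 Pt)} {F : Wt → Prop} (h : DepW S F) (hST : S ⊆ T) :
    DepW T F := fun w w' e => h w w' fun x hx => e x (hST hx)

theorem dep_and {S T : Set (Sym2 Pt)} {F F' : Wt → Prop} (h : DepW S F) (h' : DepW T F') :
    DepW (S ∪ T) fun w => F w ∧ F' w := fun w w' e k =>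
  ⟨h w w' (fun x hx => e x (Or.inl hx)) k.1, h' w w' (fun x hx => e x (Or.inr hx)) k.2⟩

theorem dep_comp {S T : Set (Sym2 Pt)} {F : Wt → Prop} (h : DepW S F) (φ : Pt → Pt)
    (hφ : ∀ e ∈ S, Sym2.map φ e ∈ T) : DepW T fun w => F (w ∘ Sym2.map φ) :=
  fun _ _ e => h _ _ fun x hx => e _ (hφ x hx)

/-- The pairs of the half grid other than the two special edges. -/
def S0 (n k : ℤ) : Set (Sym2 Pt) := {e | e ∈ (HH n k).sym2 ∧ e ≠ ee k ∧ e ≠ rr k}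

theorem dep_side {t : ℕ} {n k : ℤ} (hk : 2 ≤ k) (hn : 2 * k ≤ n) (A : Finset Pt) :
    DepW (S0 n k) fun w => Side w t n k A := by
  rintro w w' e ⟨h1, h2, h3⟩
  refine ⟨h1, h2, fun p hp q hq hqA hpq hne => ?_⟩
  obtain ⟨h4, h5⟩ := h3 p hp q hq hqA hpq hne
  have hr : s(p, q) ≠ rr k := fun h => by
    rcases Sym2.eq_iff.1 h with ⟨rfl, -⟩ | ⟨rfl, -⟩
    · have := (h2 k (by omega) (by omega)).1 hp
      omega
    · have := (h2 (k + 1) (by omega) (by omega)).1 hp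
      omega
  have hw : w s(p, q) = w' s(p, q) := e _ ⟨mk_mem_sym2_iff.2 ⟨h1 hp, hq⟩, hne, hr⟩
  refine ⟨hw ▸ h4, h5.mono fun a b _ h => ⟨h.1, ?_⟩⟩
  by_cases g1 : s(a, b) = ee k
  · exact Or.inl g1
  by_cases g2 : s(a, b) = rr k
  · exact Or.inr (Or.inl g2)
  rw [← hw, ← e _ ⟨h.1, g1, g2⟩]
  exact h.2

theorem dep_sz {t a : ℕ} {n k : ℤ} (hk : 2 ≤ k) (hn : 2 * k ≤ n) :
    DepW (S0 n k) fun w => Sz w t n k a := by
  rintro w w' e ⟨⟨A, h1, h2⟩, h3⟩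
  exact ⟨⟨A, h1, dep_side hk hn A w w' e h2⟩, fun B hB =>
    h3 B (dep_side hk hn B w' w (fun x hx => (e x hx).symm) hB)⟩

theorem tr_inj (m j : ℤ) : Function.Injective (tr m j) := fun p q h => by
  simp only [tr, Prod.ext_iff] at h ⊢
  omega

theorem dn_inj (n k : ℤ) : Function.Injective (dn n k) := fun p q h => by
  simp only [dn, Prod.ext_iff] at h ⊢
  omega

/-- The pairs used by the upper half. -/
def T1 (n k : ℤ) : Set (Sym2 Pt) := {e | (∀ z ∈ e, n - k ≤ z.2) ∧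
  e ≠ Sym2.map (tr 0 (n - k)) (ee k) ∧ e ≠ Sym2.map (tr 0 (n - k)) (rr k)}

/-- The pairs used by the lower half. -/
def T2 (n k : ℤ) : Set (Sym2 Pt) := {e | (∀ z ∈ e, z.2 ≤ k - 1) ∧
  e ≠ Sym2.map (dn n k) (ee k) ∧ e ≠ Sym2.map (dn n k) (rr k)}

theorem mem_T1 {n k : ℤ} : ∀ e ∈ S0 n k, Sym2.map (tr 0 (n - k)) e ∈ T1 n k := by
  rintro e ⟨h1, h2, h3⟩
  refine ⟨fun z hz => ?_, (Sym2.map.injective (tr_inj _ _)).ne h2,
    (Sym2.map.injective (tr_inj _ _)).ne h3⟩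
  obtain ⟨p, hp, rfl⟩ := Sym2.mem_map.1 hz
  have := mem_Rc.1 (mem_sym2_iff.1 h1 p hp)
  simp only [tr]
  omega

theorem mem_T2 {n k : ℤ} : ∀ e ∈ S0 n k, Sym2.map (dn n k) e ∈ T2 n k := by
  rintro e ⟨h1, h2, h3⟩
  refine ⟨fun z hz => ?_, (Sym2.map.injective (dn_inj _ _)).ne h2,
    (Sym2.map.injective (dn_inj _ _)).ne h3⟩
  obtain ⟨p, hp, rfl⟩ := Sym2.mem_map.1 hz
  have := mem_Rc.1 (mem_sym2_iff.1 h1 p hp)
  simp only [dn]
  omega

theorem disj12 {n k : ℤ} (hn : 2 * k ≤ n) : Disjoint (T1 n k) (T2 n k) := by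
  rw [Set.disjoint_left]
  intro e h1 h2
  induction e with
  | h p q =>
    have a1 := h1.1 p (Sym2.mem_mk_left p q)
    have a2 := h2.1 p (Sym2.mem_mk_left p q)
    omega

theorem special' {n k : ℤ} (hk : 2 ≤ k) (hn : 2 * k ≤ n) (hn' : n ≤ 2 * k + 1) (e : Sym2 Pt)
    (h : e ∈ Lt n k ∨ e ∈ Hv n k) : e ∉ T1 n k ∧ e ∉ T2 n k ∧
      e ∈ (Rc 0 (n - 1) 0 (n - 1)).sym2 ∧ ¬ (e ∈ Lt n k ∧ e ∈ Hv n k) := by
  by_cases hp : n = 2 * k
  · simp only [Lt, Hv, if_pos hp, mem_insert, mem_singleton] at h ⊢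
    rcases h with (rfl | rfl | rfl | rfl | rfl) | rfl <;> refine ⟨?_, ?_, ?_, ?_⟩ <;>
    simp only [T1, T2, ee, rr, tr, dn, Sym2.map_mk, Set.mem_ofPred_eq, Sym2.mem_iff,
      forall_eq_or_imp, forall_eq, ne_eq, Sym2.eq_iff, Prod.mk.injEq, mk_mem_sym2_iff, mem_Rc,
      true_and, and_true, true_or, or_true] <;> omega
  · simp only [Lt, Hv, if_neg hp, mem_insert, mem_singleton] at h ⊢
    rcases h with (rfl | rfl | rfl | rfl | rfl | rfl | rfl | rfl) | rfl | rfl | rfl <;>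
    refine ⟨?_, ?_, ?_, ?_⟩ <;>
    simp only [T1, T2, ee, rr, tr, dn, Sym2.map_mk, Set.mem_ofPred_eq, Sym2.mem_iff,
      forall_eq_or_imp, forall_eq, ne_eq, Sym2.eq_iff, Prod.mk.injEq, mk_mem_sym2_iff, mem_Rc,
      true_and, and_true, true_or, or_true] <;> omega

theorem card_Lt (n k : ℤ) : (Lt n k).card ≤ 8 := by
  unfold Lt
  split_ifs
  · exact card_le_five.trans (by norm_num)
  · exact (card_insert_le _ _).trans (Nat.succ_le_succ ((card_insert_le _ _).trans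
      (Nat.succ_le_succ card_le_six)))

theorem card_Hv (n k : ℤ) : (Hv n k).card ≤ 3 := by
  unfold Hv
  split_ifs
  · simp
  · exact card_le_three

end ProdP

open ProdP in
theorem p_prod (h1 : S_map) (h2 : S_prob) : S_prod := by
  intro L s t n k a hk hn hn' hL hs hs'
  obtain ⟨hind, hlt, hge, -⟩ := h2 (Rc 0 (n - 1) 0 (n - 1)) L hL
  have sp := special' hk hn hn'
  have d0 := dep_sz (t := t) (a := a) hk hn
  have dH : DepW (HH n k).sym2 fun w => Sz w t n k a := dep_mono d0 fun e he => he.1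
  have d1 := dep_comp d0 _ mem_T1
  have d2 := dep_comp d0 _ mem_T2
  have d3 : DepW (Lt n k) fun w => ∀ e ∈ Lt n k, w e < s :=
    fun w w' e h x hx => e x hx ▸ h x hx
  have d4 : DepW (Hv n k) fun w => ∀ e ∈ Hv n k, s ≤ w e :=
    fun w w' e h x hx => e x hx ▸ h x hx
  have j3 : Disjoint (Lt n k : Set (Sym2 Pt)) (Hv n k) :=
    Set.disjoint_left.2 fun e a b => (sp e (Or.inl a)).2.2.2 ⟨a, b⟩
  have j2 : Disjoint (T2 n k) ((Lt n k : Set (Sym2 Pt)) ∪ Hv n k) :=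
    Set.disjoint_left.2 fun e a b => (sp e b).2.1 a
  have j1 : Disjoint (T1 n k) (T2 n k ∪ ((Lt n k : Set (Sym2 Pt)) ∪ Hv n k)) :=
    Set.disjoint_union_right.2 ⟨disj12 hn, Set.disjoint_left.2 fun e a b => (sp e b).1 a⟩
  have m1 := h1 (HH n k) (Rc 0 (n - 1) 0 (n - 1)) L _ _ hL (tr_inj 0 (n - k)) (fun p hp => by
    have := mem_Rc.1 hp
    simp only [mem_Rc, tr]
    omega) dH
  have m2 := h1 (HH n k) (Rc 0 (n - 1) 0 (n - 1)) L _ _ hL (dn_inj n k) (fun p hp => by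
    have := mem_Rc.1 hp
    simp only [mem_Rc, dn]
    omega) dH
  unfold Fine
  rw [hind _ _ _ _ j1 d1 (dep_and d2 (dep_and d3 d4)), hind _ _ _ _ j2 d2 (dep_and d3 d4),
    hind _ _ _ _ j3 d3 d4, m1, m2, hlt _ (fun e he => (sp e (Or.inl he)).2.2.1) s (by omega),
    hge _ (fun e he => (sp e (Or.inr he)).2.2.1) s (by omega)]
  have hL' : (0 : ℝ) < L := by exact_mod_cast hL
  have b1 : (1 : ℝ) / 8 ≤ s / L := by
    rw [div_le_div_iff₀ (by norm_num) hL']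
    have : (L : ℝ) ≤ 8 * s := by exact_mod_cast hs
    linarith
  have b2 : (s : ℝ) / L ≤ 1 / 2 := by
    rw [div_le_div_iff₀ hL' (by norm_num)]
    have : 2 * (s : ℝ) ≤ L := by exact_mod_cast hs'
    linarith
  have c1 : ((1 : ℝ) / 8) ^ 8 ≤ ((s : ℝ) / L) ^ (Lt n k).card :=
    (pow_le_pow_of_le_one (by norm_num) (by norm_num) (card_Lt n k)).trans
      (pow_le_pow_left₀ (by norm_num) b1 _)
  have c2 : ((1 : ℝ) / 2) ^ 3 ≤ (1 - (s : ℝ) / L) ^ (Hv n k).card :=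
    (pow_le_pow_of_le_one (by norm_num) (by norm_num) (card_Hv n k)).trans
      (pow_le_pow_left₀ (by norm_num) (by linarith) _)
  have c3 := mul_le_mul c1 c2 (by norm_num) ((by norm_num : (0 : ℝ) ≤ _).trans c1)
  have c4 := mul_le_mul_of_nonneg_left c3
    (sq_nonneg (PP (HH n k) L fun w => Sz w t n k a))
  calc _ = PP (HH n k) L (fun w => Sz w t n k a) ^ 2 * (((1 : ℝ) / 8) ^ 8 * (1 / 2) ^ 3) := by
        ring
    _ ≤ _ := c4
    _ = _ := by ring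

end Pool.Agent.P.MP_5fda20_pr.G
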