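import Pool.Agent.P.MP_5fda20_pr.G.Defs

/-! The two sides of an edge in the greedy forest, and the side given by the three arm event. -/

namespace Pool.Agent.P.MP_5fda20_pr.G

open Finset

namespace SideP

/-- The state after all edges of weight below `s`. -/
structure Inv (w : Wt) (E : Finset (Sym2 Pt)) (u v : Pt) (s : ℕ) (A B : Set Pt) : Prop where
  hu : u ∈ A
  hv : v ∈ B
  dis : Disjoint A B
  clo : ∀ p q, Nb p q → s(p, q) ∈ E → w s(p, q) < s → p ∈ A ∪ B → q ∈ A ∪ B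
  cA : ∀ p ∈ A, Con (fun e => (e ∈ E ∧ w e < s) ∧ ∀ z ∈ e, z ∈ A) u p
  cB : ∀ p ∈ B, Con (fun e => (e ∈ E ∧ w e < s) ∧ ∀ z ∈ e, z ∈ B) v p
  cut : ∀ p ∈ A, ∀ q ∈ B, Nb p q → s(p, q) ∈ E → w s(p, q) < s →
    Con (fun g => g = s(u, v) ∨ (g ∈ E ∧ w g < w s(p, q))) p q

variable {w : Wt} {E : Finset (Sym2 Pt)} {u v x y : Pt} {s : ℕ} {A B : Set Pt}

theorem Inv.symm (h : Inv w E u v s A B) : Inv w E v u s B A := by
  refine ⟨h.hv, h.hu, h.dis.symm, fun p q h1 h2 h3 h4 => ?_, h.cB, h.cA,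
    fun p hp q hq h1 h2 h3 => ?_⟩
  · rw [Set.union_comm] at h4 ⊢
    exact h.clo p q h1 h2 h3 h4
  · rw [Sym2.eq_swap (a := p)] at h2 h3 ⊢
    rw [Sym2.eq_swap (a := v)]
    exact (h.cut q hq p hp h1.symm h2 h3).symm

theorem Inv.keep (h : Inv w E u v s A B) (huv : Nb u v)
    (hn : ∀ x y, Nb x y → s(x, y) ∈ E → w s(x, y) = s → x ∈ A ∪ B → y ∈ A ∪ B) :
    Inv w E u v (s + 1) A B := by
  refine ⟨h.hu, h.hv, h.dis, fun p q h1 h2 h3 => ?_,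
    fun p hp => (h.cA p hp).mono fun _ _ _ h1 => ⟨⟨h1.1.1, h1.1.2.trans s.lt_succ_self⟩, h1.2⟩,
    fun p hp => (h.cB p hp).mono fun _ _ _ h1 => ⟨⟨h1.1.1, h1.1.2.trans s.lt_succ_self⟩, h1.2⟩,
    fun p hp q hq h1 h2 h3 => ?_⟩
  · exact (Nat.lt_succ_iff_lt_or_eq.1 h3).elim (h.clo p q h1 h2) (hn p q h1 h2)
  · refine (Nat.lt_succ_iff_lt_or_eq.1 h3).elim (h.cut p hp q hq h1 h2) fun h4 => ?_
    rw [h4]
    exact (((h.cA p hp).symm.mono fun _ _ _ h5 => Or.inr h5.1).tail huv (Or.inl rfl)).trans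
      ((h.cB q hq).mono fun _ _ _ h5 => Or.inr h5.1)

theorem Inv.grow (h : Inv w E u v s A B) (hw : Set.InjOn w E) (hxy : Nb x y) (hE : s(x, y) ∈ E)
    (hs : w s(x, y) = s) (hx : x ∈ A) (hy : y ∉ A ∪ B) : ∃ A', Inv w E u v (s + 1) A' B := by
  obtain ⟨C, hC⟩ : ∃ C : Set Pt, ∀ z, z ∈ C ↔ Con (fun e => e ∈ E ∧ w e < s) y z :=
    ⟨{z | _}, fun _ => Iff.rfl⟩
  have hyC : y ∈ C := (hC y).2 (.refl y)
  have hCc : ∀ p q, Nb p q → s(p, q) ∈ E → w s(p, q) < s → p ∈ C → q ∈ C :=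
    fun p q h1 h2 h3 h4 => (hC q).2 (((hC p).1 h4).tail h1 ⟨h2, h3⟩)
  have hCn : ∀ z ∈ C, z ∉ A ∪ B := fun z hz h1 => hy
    (((hC z).1 hz).symm.ind (P := fun a => a ∈ A ∪ B) h1 fun a b _ h2 h3 => h.clo a b h2 h3.1 h3.2)
  have heq : ∀ p q, s(p, q) ∈ E → w s(p, q) = s → q = x ∨ q = y := fun p q h1 h2 => by
    have h3 : s(p, q) = s(x, y) := hw h1 hE (h2.trans hs.symm)
    exact Sym2.mem_iff.1 (h3 ▸ Sym2.mem_mk_right p q)
  have hA : ∀ p ∈ A, Con (fun e => (e ∈ E ∧ w e < s + 1) ∧ ∀ z ∈ e, z ∈ A ∪ C) u p :=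
    fun p hp => (h.cA p hp).mono fun _ _ _ h1 =>
      ⟨⟨h1.1.1, h1.1.2.trans s.lt_succ_self⟩, fun z hz => Or.inl (h1.2 z hz)⟩
  refine ⟨A ∪ C, Or.inl h.hu, h.hv, Set.disjoint_union_left.2 ⟨h.dis,
    Set.disjoint_left.2 fun z hz h1 => hCn z hz (Or.inr h1)⟩, fun p q h1 h2 h3 h4 => ?_,
    fun p hp => hp.elim (hA p) fun hp => ?_,
    fun p hp => (h.cB p hp).mono fun _ _ _ h1 => ⟨⟨h1.1.1, h1.1.2.trans s.lt_succ_self⟩, h1.2⟩,
    fun p hp q hq h1 h2 h3 => ?_⟩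
  · rcases Nat.lt_succ_iff_lt_or_eq.1 h3 with h5 | h5
    · rcases h4 with (h4 | h4) | h4
      · exact (h.clo p q h1 h2 h5 (Or.inl h4)).imp Or.inl id
      · exact Or.inl (Or.inr (hCc p q h1 h2 h5 h4))
      · exact (h.clo p q h1 h2 h5 (Or.inr h4)).imp Or.inl id
    · rcases heq p q h2 h5 with rfl | rfl
      exacts [Or.inl (Or.inl hx), Or.inl (Or.inr hyC)]
  · refine ((hC p).1 hp).ind ((hA x hx).tail hxy ⟨⟨hE, by omega⟩, fun z hz => ?_⟩)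
      fun a b h1 h2 h3 h4 => h4.tail h2 ⟨⟨h3.1, h3.2.trans s.lt_succ_self⟩, fun z hz => ?_⟩
    · rcases Sym2.mem_iff.1 hz with rfl | rfl
      exacts [Or.inl hx, Or.inr hyC]
    · rcases Sym2.mem_iff.1 hz with rfl | rfl
      exacts [Or.inr ((hC _).2 h1), Or.inr ((hC _).2 (h1.tail h2 h3))]
  · rcases Nat.lt_succ_iff_lt_or_eq.1 h3 with h5 | h5
    · exact hp.elim (fun hp => h.cut p hp q hq h1 h2 h5) fun hp =>
        (hCn q (hCc p q h1 h2 h5 hp) (Or.inr hq)).elim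
    · rcases heq p q h2 h5 with rfl | rfl
      exacts [(Set.disjoint_left.1 h.dis hx hq).elim, (hy (Or.inr hq)).elim]

theorem exists_inv (huv : Nb u v) (hw : Set.InjOn w E) (s : ℕ) : ∃ A B, Inv w E u v s A B := by
  induction s with
  | zero =>
    refine ⟨{u}, {v}, rfl, rfl, Set.disjoint_singleton.2 fun h => ?_,
      fun _ _ _ _ h => absurd h (Nat.not_lt_zero _), fun p hp => hp ▸ .refl _,
      fun p hp => hp ▸ .refl _, fun _ _ _ _ _ _ h => absurd h (Nat.not_lt_zero _)⟩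
    rw [h, nb_iff] at huv
    omega
  | succ s ih =>
    obtain ⟨A, B, h⟩ := ih
    by_cases hn : ∀ x y, Nb x y → s(x, y) ∈ E → w s(x, y) = s → x ∈ A ∪ B → y ∈ A ∪ B
    · exact ⟨A, B, h.keep huv hn⟩
    · simp only [not_forall] at hn
      obtain ⟨x, y, h1, h2, h3, h4, h5⟩ := hn
      rcases h4 with h4 | h4
      · obtain ⟨A', h6⟩ := h.grow hw h1 h2 h3 h4 h5
        exact ⟨A', B, h6⟩
      · obtain ⟨B', h6⟩ := h.symm.grow hw h1 h2 h3 h4 (by rwa [Set.union_comm])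
        exact ⟨A, B', h6.symm⟩

/-- Rectangles are connected. -/
theorem rc_ind {b d k : ℤ} {P : Pt → Prop} (hk : (k, 0) ∈ Rc 0 b 0 d) (h0 : P (k, 0))
    (hs : ∀ p ∈ Rc 0 b 0 d, ∀ q ∈ Rc 0 b 0 d, Nb p q → P p → P q) : ∀ p ∈ Rc 0 b 0 d, P p := by
  intro p hp
  obtain ⟨m, hm⟩ : ∃ m, (p.1 - k).natAbs + p.2.natAbs = m := ⟨_, rfl⟩
  induction m generalizing p with
  | zero =>
    have : p = (k, 0) := Prod.ext (by simp only; omega) (by simp only; omega)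
    exact this ▸ h0
  | succ m ih =>
    have h1 := mem_Rc.1 hp
    have h2 := mem_Rc.1 hk
    simp only at h2
    have key : ∀ q : Pt, ((0 ≤ q.1 ∧ q.1 ≤ b) ∧ 0 ≤ q.2 ∧ q.2 ≤ d) → Nb q p →
        (q.1 - k).natAbs + q.2.natAbs = m → P p := fun q h3 h4 h5 =>
      hs q (mem_Rc.2 h3) p hp h4 (ih q (mem_Rc.2 h3) h5)
    by_cases h3 : 0 < p.2
    · exact key (p.1, p.2 - 1) (by simp only; omega) (nb_iff.2 (by dsimp only; omega))
        (by simp only; omega)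
    by_cases h4 : k < p.1
    · exact key (p.1 - 1, p.2) (by simp only; omega) (nb_iff.2 (by dsimp only; omega))
        (by simp only; omega)
    · exact key (p.1 + 1, p.2) (by simp only; omega) (nb_iff.2 (by dsimp only; omega))
        (by simp only; omega)

end SideP

open SideP

theorem p_kru : S_kru := by
  intro w E u v huv hw
  obtain ⟨A, B, h⟩ := exists_inv huv hw (E.sup w + 1)
  have hlt : ∀ e ∈ E, w e < E.sup w + 1 := fun e he => Nat.lt_succ_of_le (le_sup he)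
  exact ⟨A, B, h.hu, h.hv, h.dis, fun p q h1 h2 => h.clo p q h1 h2 (hlt _ h2),
    fun p hp => (h.cA p hp).mono fun _ _ _ h1 => ⟨h1.1.1, h1.2⟩,
    fun p hp => (h.cB p hp).mono fun _ _ _ h1 => ⟨h1.1.1, h1.2⟩,
    fun p hp q hq h1 h2 => h.cut p hp q hq h1 h2 (hlt _ h2)⟩

theorem p_side (h3 : S_pl3) (hk : S_kru) : S_side := by
  classical
  intro w t n k k2 kn nk hw ⟨⟨z₁, r₁, a₁⟩, ⟨z₂, r₂, a₂⟩, a₃⟩
  have huv : Nb (k - 1, 0) (k, 0) := nb_iff.2 (by dsimp only; omega)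
  obtain ⟨A, B, hu, hv, dis, clo, cA, cB, cut⟩ := hk w ((HH n k).sym2.erase (ee k)) _ _ huv
    (hw.mono fun _ h => mem_of_mem_erase h)
  have hrow : ∀ x, 0 ≤ x → x < n → (x, 0) ∈ HH n k := fun x _ _ => mem_Rc.2 (by simp only; omega)
  have hAB : ∀ p ∈ HH n k, p ∈ A ∪ B := by
    refine rc_ind (hrow k (by omega) (by omega)) (Or.inr hv) fun p hp q hq h1 h2 => ?_
    by_cases he : s(p, q) = ee k
    · rcases Sym2.mem_iff.1 (show q ∈ ee k from he ▸ Sym2.mem_mk_right p q) with rfl | rfl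
      exacts [Or.inl hu, Or.inr hv]
    · exact clo p q h1 (mem_erase.2 ⟨he, mk_mem_sym2_iff.2 ⟨hp, hq⟩⟩) h2
  have nocut : ∀ m, m < t → ∀ p ∈ A, ∀ q ∈ B, Nb p q → s(p, q) ∈ (HH n k).sym2.erase (ee k) →
      w s(p, q) ≠ m := by
    intro m
    induction m using Nat.strong_induction_on with
    | _ m ih =>
      intro hm p hp q hq h1 h2 h4
      have h5 : ∀ z, Con (fun g => g ∈ (HH n k).sym2.erase (ee k) ∧ w g < m) p z → z ∈ A :=
        fun z hz => hz.ind hp fun a b _ h6 h7 h8 => (clo a b h6 h7.1 (Or.inl h8)).resolve_right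
          fun h9 => ih _ h7.2 (h7.2.trans hm) a h8 b h9 h6 h7.1 rfl
      have h6 := cut p hp q hq h1 h2
      rw [h4] at h6
      have h7 : ∀ a b, Nb a b → (s(a, b) ∈ (HH n k).sym2.erase (ee k) ∧ w s(a, b) < m) →
          (Op w t (HH n k) s(a, b) ∧ s(a, b) ≠ ee k) := fun a b _ h =>
        ⟨⟨h.2.trans hm, mem_of_mem_erase h.1⟩, ne_of_mem_erase h.1⟩
      rcases Con.add (h6.mono fun _ _ _ h => h.symm)
        (fun h => Set.disjoint_left.1 dis (h5 q h) hq) with h8 | h8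
      · exact a₃ (((h8.1.symm.mono h7).tail h1 ⟨⟨h4 ▸ hm, mem_of_mem_erase h2⟩,
          ne_of_mem_erase h2⟩).trans (h8.2.symm.mono h7))
      · exact Set.disjoint_left.1 dis (h5 _ h8.1) hv
  have oA : ∀ z, Con (fun e => Op w t (HH n k) e ∧ e ≠ ee k) (k - 1, 0) z → z ∈ A :=
    fun z hz => hz.ind hu fun a b _ h6 h7 h8 =>
      (clo a b h6 (mem_erase.2 ⟨h7.2, h7.1.2⟩) (Or.inl h8)).resolve_right fun h9 =>
        nocut _ h7.1.1 a h8 b h9 h6 (mem_erase.2 ⟨h7.2, h7.1.2⟩) rfl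
  have oB : ∀ z, Con (fun e => Op w t (HH n k) e ∧ e ≠ ee k) (k, 0) z → z ∈ B :=
    fun z hz => hz.ind hv fun a b _ h6 h7 h8 =>
      (clo a b h6 (mem_erase.2 ⟨h7.2, h7.1.2⟩) (Or.inr h8)).resolve_left fun h9 =>
        nocut _ h7.1.1 b h9 a h8 h6.symm (Sym2.eq_swap ▸ mem_erase.2 ⟨h7.2, h7.1.2⟩)
          (congrArg w Sym2.eq_swap)
  have stay : ∀ {C : Set Pt} {p z : Pt},
      Con (fun e => e ∈ (HH n k).sym2.erase (ee k) ∧ ∀ z ∈ e, z ∈ C) p z → p ∈ C → z ∈ C :=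
    fun h hp => h.ind hp fun a b _ _ h7 _ => h7.2 b (Sym2.mem_mk_right a b)
  refine ⟨(HH n k).filter (· ∈ A), filter_subset _ _, fun x x0 xn => ?_,
    fun p hp q hq hq' h1 h2 => ?_⟩
  · rw [mem_filter, and_iff_right (hrow x x0 xn)]
    refine ⟨fun hx => ?_, fun hx => (hAB _ (hrow x x0 xn)).resolve_right fun hB => ?_⟩
    · by_contra hxk
      obtain ⟨z, h5, h6⟩ := h3 0 (n - 1) 0 (k - 1) k (k - 1) x z₂ _ _ (fun _ h => h.1.2)
        (fun _ h => mem_of_mem_erase h.1) (hrow k (by omega) (by omega))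
        (hrow (k - 1) (by omega) (by omega)) r₂.2 a₂ (cA _ hx) (by omega) (by omega)
      exact Set.disjoint_left.1 dis (stay h6 hu) (oB z h5)
    · obtain ⟨z, h5, h6⟩ := h3 0 (n - 1) 0 (k - 1) (k - 1) x k z₁ _ _ (fun _ h => h.1.2)
        (fun _ h => mem_of_mem_erase h.1) (hrow (k - 1) (by omega) (by omega))
        (hrow x x0 xn) r₁.2 a₁ (cB _ hB).symm (by omega) (by omega)
      exact Set.disjoint_left.1 dis (oA z h5) (stay h6 hB)
  · obtain ⟨hp1, hp2⟩ := mem_filter.1 hp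
    have hB : q ∈ B := (hAB q hq).resolve_left fun h => hq' (mem_filter.2 ⟨hq, h⟩)
    have hE : s(p, q) ∈ (HH n k).sym2.erase (ee k) :=
      mem_erase.2 ⟨h2, mk_mem_sym2_iff.2 ⟨hp1, hq⟩⟩
    refine ⟨not_lt.1 fun h => nocut _ h p hp2 q hB h1 hE rfl,
      (cut p hp2 q hB h1 hE).mono fun a b _ h => h.elim (fun h => ⟨?_, Or.inl h⟩) fun h =>
        ⟨mem_of_mem_erase h.1, Or.inr (Or.inr h.2)⟩⟩
    rw [h]
    exact mk_mem_sym2_iff.2 ⟨hrow _ (by omega) (by omega), hrow _ (by omega) (by omega)⟩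

end Pool.Agent.P.MP_5fda20_pr.G
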