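import Pool.Agent.P.MP_5fda20_pr.G.Plan
import Pool.Agent.P.MP_5fda20_pr.G.Prob
import Pool.Agent.P.MP_5fda20_pr.G.Cross
import Pool.Agent.P.MP_5fda20_pr.G.Lev
import Pool.Agent.P.MP_5fda20_pr.G.Arm
import Pool.Agent.P.MP_5fda20_pr.G.Parm
import Pool.Agent.P.MP_5fda20_pr.G.Side
import Pool.Agent.P.MP_5fda20_pr.G.Cut
import Pool.Agent.P.MP_5fda20_pr.G.Fine
import Pool.Agent.P.MP_5fda20_pr.G.Prod
import Pool.Agent.P.MP_5fda20_pr.G.Fin

/-! The lower bound on grids. -/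

namespace Pool.Agent.P.MP_5fda20_pr.G

open SimpleGraph

theorem main {n : ℕ} (hn : 4 ≤ n) :
    1 / 10 ^ 16 / (n : ℝ) ^ 6 ≤ pMST (pathGraph n □ pathGraph n) :=
  have t := p_tr p_map
  grid_lower (p_parm p_map p_prob t (p_glue p_pl1 t) (p_lev p_prob) (p_low p_prob)
    (p_arm p_pl1 p_pl2)) (p_side p_pl3 p_kru) p_prob p_fine (p_prod p_map p_prob) (p_real p_cut) hn

end Pool.Agent.P.MP_5fda20_pr.G
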