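import Pool.Agent.P.MP_5fda20_pr.G.Defs

/-! Planarity of the square lattice: crossing lemmas by a parity count. -/

namespace Pool.Agent.P.MP_5fda20_pr.G

open Finset

namespace Plan

variable {O O' : Sym2 Pt → Prop} {p q r s : Pt} {a b c d : ℤ}

theorem par (hO : ∀ e, O e → e ∈ (Rc a b c d).sym2) (h : Con O p q) : ∃ f : ℤ → ℤ → ℤ,
    (∀ x y, ¬ Con O p (x, y) → f x (y + 1) = f x y) ∧
    (∀ x y, ¬ Con O p (x + 1, y) → (f x y + f (x + 1) y +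
      (if p.1 = x + 1 ∧ p.2 < y then 1 else 0) + if q.1 = x + 1 ∧ q.2 < y then 1 else 0) % 2 = 0) ∧
    (∀ x, f x c = 0) ∧
    ∀ x, (f x (d + 1) + (if p.1 ≤ x then 1 else 0) + if q.1 ≤ x then 1 else 0) % 2 = 0 := by
  refine h.ind (P := fun q => ∃ f : ℤ → ℤ → ℤ, (∀ x y, ¬ Con O p (x, y) → f x (y + 1) = f x y) ∧
    (∀ x y, ¬ Con O p (x + 1, y) → (f x y + f (x + 1) y +
      (if p.1 = x + 1 ∧ p.2 < y then 1 else 0) + if q.1 = x + 1 ∧ q.2 < y then 1 else 0) % 2 = 0) ∧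
    (∀ x, f x c = 0) ∧
    ∀ x, (f x (d + 1) + (if p.1 ≤ x then 1 else 0) + if q.1 ≤ x then 1 else 0) % 2 = 0)
    ⟨fun _ _ => 0, fun _ _ _ => rfl, fun _ _ _ => by split_ifs <;> rfl, fun _ => rfl,
      fun _ => by split_ifs <;> rfl⟩ ?_
  rintro u v h1 h2 h3 ⟨f, f1, f2, f3, f4⟩
  have h4 := mem_Rc.1 (mk_mem_sym2_iff.1 (hO _ h3)).1
  have h5 : ∀ x y, ¬ Con O p (x, y) → ¬(u.1 = x ∧ u.2 = y) ∧ ¬(v.1 = x ∧ v.2 = y) := fun x y h =>
    ⟨fun e => h (by rw [← e.1, ← e.2]; exact h1),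
      fun e => h (by rw [← e.1, ← e.2]; exact h1.tail h2 h3)⟩
  rw [nb_iff] at h2
  refine ⟨fun x y => f x y + if u.2 = v.2 ∧ x = min u.1 v.1 ∧ u.2 < y then 1 else 0,
    fun x y h => ?_, fun x y h => ?_, fun x => ?_, fun x => ?_⟩ <;> beta_reduce
  · have := f1 x y h
    have := h5 _ _ h
    split_ifs <;> omega
  · have h6 := f2 x y h
    have := h5 _ _ h
    revert h6
    split_ifs <;> omega
  · have := f3 x
    split_ifs <;> omega
  · have h6 := f4 x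
    revert h6
    split_ifs <;> omega

/-- The correction for an end of the first path. -/
def Cor (a b c d : ℤ) (e : Pt) (g : ℤ → ℤ → ℤ) : Prop :=
  ∀ x y, ¬(e.1 = x ∧ e.2 = y) → x ≤ b → c ≤ y → y ≤ d → g x (y + 1) = g x y ∧
    (a < x → g x y = g (x - 1) y + if e.1 = x ∧ e.2 < y then 1 else 0)

theorem cor_bot (x : ℤ) : Cor a b c d (x, c) fun x' _ => if x ≤ x' then 1 else 0 :=
  fun x' y h1 h2 h3 h4 => ⟨rfl, fun _ => by
    simp only at h1 ⊢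
    split_ifs <;> omega⟩

theorem cor_side (h : q.1 = a ∨ q.1 = b ∨ q.2 = d) :
    Cor a b c d q fun x y => if x = b ∧ q.1 = b ∧ q.2 < y then 1 else 0 :=
  fun x y h1 h2 h3 h4 => ⟨by beta_reduce; split_ifs <;> omega, fun _ => by
    beta_reduce
    split_ifs <;> omega⟩

theorem key (hO : ∀ e, O e → e ∈ (Rc a b c d).sym2) (hO' : ∀ e, O' e → e ∈ (Rc a b c d).sym2)
    (h : Con O p q) (h' : Con O' r s) (hd : ¬ ∃ z, Con O p z ∧ Con O' r z) {g g' : ℤ → ℤ → ℤ}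
    (hg : Cor a b c d p g) (hg' : Cor a b c d q g') (hr : r.2 = c) :
    (s.2 = c → (g r.1 c + g' r.1 c + g s.1 c + g' s.1 c) % 2 = 0) ∧
    (s.2 = d → (g r.1 c + g' r.1 c + g s.1 d + g' s.1 d + (if p.1 ≤ s.1 then 1 else 0) +
      if q.1 ≤ s.1 then 1 else 0) % 2 = 0) := by
  obtain ⟨f, f1, f2, f3, f4⟩ := par hO h
  have h0 : ∀ z, Con O' r z → ¬ Con O p (z.1, z.2) := fun z hz h => hd ⟨z, h, hz⟩
  have h1 : ∀ z, Con O' r z → ¬(p.1 = z.1 ∧ p.2 = z.2) ∧ ¬(q.1 = z.1 ∧ q.2 = z.2) := fun z hz =>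
    ⟨fun e => h0 z hz (by rw [← e.1, ← e.2]; exact .refl p),
      fun e => h0 z hz (by rw [← e.1, ← e.2]; exact h)⟩
  have h2 : ∀ u v, Con O' r u → Con O' r v → u ∈ Rc a b c d → v ∈ Rc a b c d →
      (v.1 = u.1 + 1 ∧ v.2 = u.2) ∨ (v.1 = u.1 ∧ v.2 = u.2 + 1) →
      (f u.1 u.2 + g u.1 u.2 + g' u.1 u.2 + f v.1 v.2 + g v.1 v.2 + g' v.1 v.2) % 2 = 0 := by
    rintro ⟨x, y⟩ ⟨x', y'⟩ hu hv h3 h4 h5
    rw [mem_Rc] at h3 h4
    simp only at h3 h4 h5 ⊢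
    obtain ⟨rfl, rfl⟩ | ⟨rfl, rfl⟩ := h5
    · have h5 := f2 _ _ (h0 _ hv)
      have h6 := (hg _ _ (h1 _ hv).1 h4.1.2 h4.2.1 h4.2.2).2 (by omega)
      have h7 := (hg' _ _ (h1 _ hv).2 h4.1.2 h4.2.1 h4.2.2).2 (by omega)
      simp only [add_sub_cancel_right] at h5 h6 h7
      omega
    · have h5 := f1 _ _ (h0 _ hu)
      have h6 := (hg _ _ (h1 _ hu).1 h3.1.2 h3.2.1 h3.2.2).1
      have h7 := (hg' _ _ (h1 _ hu).2 h3.1.2 h3.2.1 h3.2.2).1
      simp only at h5 h6 h7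
      omega
  have h3 : (g r.1 c + g' r.1 c + f s.1 s.2 + g s.1 s.2 + g' s.1 s.2) % 2 = 0 := by
    refine h'.ind (P := fun s => (g r.1 c + g' r.1 c + f s.1 s.2 + g s.1 s.2 + g' s.1 s.2) % 2 = 0)
      (by rw [hr, f3]; omega) fun u v h3 h4 h5 h6 => ?_
    obtain ⟨h7, h8⟩ := mk_mem_sym2_iff.1 (hO' _ h5)
    have h9 := h2 u v h3 (h3.tail h4 h5) h7 h8
    have h10 := h2 v u (h3.tail h4 h5) h3 h8 h7
    rw [nb_iff] at h4
    omega
  refine ⟨fun e => ?_, fun e => ?_⟩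
  · rw [e, f3] at h3
    omega
  · have h4 := f1 _ _ (h0 s h')
    have h5 := f4 s.1
    rw [e] at h3 h4
    omega

end Plan

open Plan

theorem p_pl1 : S_pl1 := by
  intro a b c d y y' x x' O O' hO hO' hp hr h h'
  by_contra hd
  have h1 := (key hO hO' h h' hd (cor_side (.inl rfl)) (cor_side (.inr (.inl rfl))) rfl).2 rfl
  have h2 := mem_Rc.1 (h.mem hO hp)
  have h3 := mem_Rc.1 (h'.mem hO' hr)
  have h4 : ¬(b = x' ∧ y' = d) := fun e => hd ⟨_, h, by rw [e.1, e.2]; exact h'⟩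
  have h5 : ¬(a = x' ∧ y = d) := fun e => hd ⟨_, .refl _, by rw [e.1, e.2]; exact h'⟩
  have h6 : a ≠ b := fun e => ?_
  · rw [mem_Rc] at hp hr
    simp only [true_and] at *
    revert h1
    split_ifs <;> omega
  · rw [mem_Rc] at hp hr
    have h7 := h'.first (fun z => -z.2) (fun u v h => by rw [nb_iff] at h; omega) (j := -y)
      (by simp only at *; omega) (by simp only at *; omega)
    obtain ⟨z, h8, h9⟩ := h7
    have h10 := h9.mono (O' := O') fun _ _ _ h => h.1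
    have h11 := mem_Rc.1 (h10.mem hO' (mem_Rc.2 hr))
    exact hd ⟨_, .refl _, by
      rwa [show (a, y) = z from Prod.ext (by simp only; omega) (by simp only; omega)]⟩

theorem p_pl2 : S_pl2 := by
  intro a b c d x x' y y' O O' hO hO' hp hr h h' hd hx
  have h1 := (key hO hO' h h' hd (cor_bot x) (cor_side (.inr (.inr rfl))) rfl).2 rfl
  have h2 := mem_Rc.1 hp
  have h4 : x ≠ y := fun e => hd ⟨_, .refl _, by rw [e]; exact .refl _⟩
  simp only at *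
  revert h1
  split_ifs <;> omega

theorem p_pl3 : S_pl3 := by
  intro a b c d x y y' q O O' hO hO' hp hr hq h h' h1 h2
  by_contra hd
  have h3 := (key hO hO' h h' hd (cor_bot x) (cor_side hq) rfl).1 rfl
  have h4 := mem_Rc.1 (h.mem hO hp)
  have h5 : x ≠ y := fun e => hd ⟨_, .refl _, by rw [e]; exact .refl _⟩
  simp only at *
  revert h3
  split_ifs <;> omega

end Pool.Agent.P.MP_5fda20_pr.G
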